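import Pool.Agent.H.MP_fc2485_gt.Sv8.LocB8

/-!
At a generic point the eight vectors `Z, Y0, F, ..., F⁽⁵⁾` are independent. (Let `k` be the largest
number such that `Z, Y0, F, ..., F^(k-1)` are independent at some point of the disc, hence on a
smaller disc; if `k < 6` then `F^(k)` is in their span on this disc, so the span is closed under
derivatives - `Z' = E0 Y1' + ... ` is in the span of `Z`, `Y0`, `F` - so it is a constant subspace, it
contains all `Y0 s`, so it is `V` by spanning, of dimension `k + 2 < 8`.) For `k = 0`, `1` the same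
argument; `Y0, Z` independent because `w ≠ 0` on the disc.
-/

set_option maxSynthPendingDepth 3

open Set Filter Topology

namespace Stek.Sv

private theorem Gen8_gron {k m : ℕ} {s1 : ℂ} {ρ : ℝ} (hρ : 0 < ρ) {W W' : Fin k → ℂ → V m}
    (hW : ∀ i, ∀ s ∈ Metric.ball s1 ρ, HasDerivAt (W i) (W' i s) s)
    (hWc : ∀ i, ContinuousAt (W' i) s1)
    (hli : LinearIndependent ℂ fun i => W i s1)
    (hcl : ∀ i, ∀ s ∈ Metric.ball s1 ρ, W' i s ∈ Submodule.span ℂ (range fun j => W j s))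
    {ξ : V m →L[ℂ] ℂ} (hξ : ∀ i, ξ (W i s1) = 0) :
    ∃ ρ', 0 < ρ' ∧ ρ' ≤ ρ ∧ ∀ s ∈ Metric.ball s1 ρ', ∀ i, ξ (W i s) = 0 := by
  obtain ⟨P0, hP0⟩ := LinearMap.exists_leftInverse_of_injective
    (Fintype.linearCombination ℂ fun i => W i s1)
    (LinearMap.ker_eq_bot.2 hli.fintypeLinearCombination_injective)
  let P : V m →L[ℂ] (Fin k → ℂ) := LinearMap.toContinuousLinearMap P0
  have hP : ∀ i, P (W i s1) = Pi.single i 1 := by
    intro i
    have h := LinearMap.congr_fun hP0 (Pi.single i 1)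
    simp only [LinearMap.comp_apply, Fintype.linearCombination_apply_single, one_smul,
      LinearMap.id_apply] at h
    exact h
  have hcont : ∀ i, ContinuousAt (W i) s1 := fun i =>
    (hW i s1 (Metric.mem_ball_self hρ)).continuousAt
  have hk : (0 : ℝ) < 2 * ((k : ℝ) + 1) := by positivity
  have h1 : ∀ i, ∀ᶠ s in 𝓝 s1, ‖P (W i s) - P (W i s1)‖ < 1 / (2 * ((k : ℝ) + 1)) := by
    intro i
    have h2 : Tendsto (fun s => ‖P (W i s) - P (W i s1)‖) (𝓝 s1) (𝓝 ‖P (W i s1) - P (W i s1)‖) :=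
      ((P.continuous.continuousAt.comp (hcont i)).sub continuousAt_const).norm
    rw [sub_self, norm_zero] at h2
    exact h2.eventually (gt_mem_nhds (by positivity))
  have h2 : ∀ i, ∀ᶠ s in 𝓝 s1, ‖P (W' i s)‖ < ‖P (W' i s1)‖ + 1 := by
    intro i
    have h2 : Tendsto (fun s => ‖P (W' i s)‖) (𝓝 s1) (𝓝 ‖P (W' i s1)‖) :=
      (P.continuous.continuousAt.comp (hWc i)).norm
    exact h2.eventually (gt_mem_nhds (by linarith))
  have h3 : ∀ᶠ s in 𝓝 s1, ∀ i, ‖P (W i s) - P (W i s1)‖ < 1 / (2 * ((k : ℝ) + 1)) ∧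
      ‖P (W' i s)‖ < ‖P (W' i s1)‖ + 1 := by
    rw [Filter.eventually_all]
    exact fun i => (h1 i).and (h2 i)
  obtain ⟨ρ1, hρ1, h4⟩ := Metric.eventually_nhds_iff_ball.1 h3
  obtain ⟨C, hC⟩ : ∃ C : ℝ, ∀ i, ‖P (W' i s1)‖ + 1 ≤ C := by
    obtain ⟨C, hC⟩ := (Set.finite_range fun i => ‖P (W' i s1)‖ + 1).bddAbove
    exact ⟨C, fun i => hC ⟨i, rfl⟩⟩
  let u : ℂ → Fin k → ℂ := fun s j => ξ (W j s)
  -- the bound
  have hb : ∀ s ∈ Metric.ball s1 (min ρ ρ1), ∀ i, ‖ξ (W' i s)‖ ≤ (k * (2 * C)) * ‖u s‖ := by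
    intro s hs i
    have hs1 : s ∈ Metric.ball s1 ρ := Metric.ball_subset_ball (min_le_left _ _) hs
    have hs2 : s ∈ Metric.ball s1 ρ1 := Metric.ball_subset_ball (min_le_right _ _) hs
    obtain ⟨a, ha⟩ := (Submodule.mem_span_range_iff_exists_fun ℂ).1 (hcl i s hs1)
    have e1 : P (W' i s) = a + ∑ j, a j • (P (W j s) - P (W j s1)) := by
      rw [← ha, map_sum]
      simp only [map_smul, smul_sub, Finset.sum_sub_distrib, hP]
      have e2 : ∑ j, a j • (Pi.single j (1 : ℂ) : Fin k → ℂ) = a := by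
        funext l
        simp [Finset.sum_apply, Pi.single_apply]
      rw [e2]
      abel
    have e3 : ‖∑ j, a j • (P (W j s) - P (W j s1))‖ ≤ ‖a‖ / 2 := by
      refine (norm_sum_le _ _).trans ?_
      have e4 : ∀ j ∈ (Finset.univ : Finset (Fin k)), ‖a j • (P (W j s) - P (W j s1))‖ ≤
          ‖a‖ * (1 / (2 * ((k : ℝ) + 1))) := by
        intro j _
        rw [norm_smul]
        exact mul_le_mul (norm_le_pi_norm a j) (h4 s hs2 j).1.le (norm_nonneg _) (norm_nonneg _)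
      refine (Finset.sum_le_sum e4).trans ?_
      rw [Finset.sum_const, Finset.card_univ, Fintype.card_fin, nsmul_eq_mul]
      have e5 : (k : ℝ) * (1 / (2 * ((k : ℝ) + 1))) ≤ 1 / 2 := by
        rw [mul_one_div, div_le_div_iff₀ hk (by norm_num)]
        linarith
      nlinarith [norm_nonneg a]
    have e6 : ‖a‖ ≤ 2 * C := by
      have e7 : a = P (W' i s) - ∑ j, a j • (P (W j s) - P (W j s1)) := by
        rw [e1, add_sub_cancel_right]
      have e8 : ‖a‖ ≤ ‖P (W' i s)‖ + ‖∑ j, a j • (P (W j s) - P (W j s1))‖ := by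
        conv_lhs => rw [e7]
        exact norm_sub_le _ _
      have e9 := (h4 s hs2 i).2
      have e10 := hC i
      linarith
    rw [← ha, map_sum]
    refine (norm_sum_le _ _).trans ?_
    have e4 : ∀ j ∈ (Finset.univ : Finset (Fin k)), ‖ξ (a j • W j s)‖ ≤ 2 * C * ‖u s‖ := by
      intro j _
      rw [map_smul, norm_smul]
      exact mul_le_mul ((norm_le_pi_norm a j).trans e6) (norm_le_pi_norm (u s) j) (norm_nonneg _)
        ((norm_nonneg _).trans e6)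
    refine (Finset.sum_le_sum e4).trans ?_
    rw [Finset.sum_const, Finset.card_univ, Fintype.card_fin, nsmul_eq_mul]
    exact le_of_eq (by ring)
  refine ⟨min ρ ρ1, lt_min hρ hρ1, min_le_left _ _, fun s hs => ?_⟩
  -- along the segment
  have hseg : ∀ τ ∈ Icc (0 : ℝ) 1, s1 + (τ : ℂ) * (s - s1) ∈ Metric.ball s1 (min ρ ρ1) := by
    intro τ hτ
    rw [Metric.mem_ball, dist_eq_norm, add_sub_cancel_left, norm_mul, Complex.norm_real,
      Real.norm_of_nonneg hτ.1]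
    have h5 : ‖s - s1‖ < min ρ ρ1 := by rwa [← dist_eq_norm]
    nlinarith [hτ.2, norm_nonneg (s - s1)]
  have hd : ∀ τ ∈ Icc (0 : ℝ) 1, HasDerivAt (fun τ : ℝ => u (s1 + (τ : ℂ) * (s - s1)))
      (fun j => (s - s1) * ξ (W' j (s1 + (τ : ℂ) * (s - s1)))) τ := by
    intro τ hτ
    rw [hasDerivAt_pi]
    intro j
    have h6 : HasDerivAt (fun t : ℂ => ξ (W j t)) (ξ (W' j (s1 + (τ : ℂ) * (s - s1))))
        (s1 + (τ : ℂ) * (s - s1)) :=
      ξ.hasFDerivAt.comp_hasDerivAt _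
        (hW j _ (Metric.ball_subset_ball (min_le_left _ _) (hseg τ hτ)))
    have h7 : HasDerivAt (fun τ : ℂ => s1 + τ * (s - s1)) (1 * (s - s1)) (τ : ℂ) :=
      ((hasDerivAt_id (τ : ℂ)).mul_const (s - s1)).const_add s1
    have h8 := (HasDerivAt.comp (τ : ℂ) h6 h7).comp_ofReal
    refine h8.congr_deriv ?_
    ring
  have hz := eq_zero_of_abs_deriv_le_mul_abs_self_of_eq_zero_right
    (f := fun τ : ℝ => u (s1 + (τ : ℂ) * (s - s1)))
    (f' := fun τ : ℝ => fun j => (s - s1) * ξ (W' j (s1 + (τ : ℂ) * (s - s1))))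
    (K := ‖s - s1‖ * (k * (2 * C))) (a := 0) (b := 1)
    (fun τ hτ => (hd τ hτ).continuousAt.continuousWithinAt)
    (fun τ hτ => (hd τ (Ico_subset_Icc_self hτ)).hasDerivWithinAt)
    (by
      funext j
      simp [u, hξ])
    (fun τ hτ => by
      have h9 := hb _ (hseg τ (Ico_subset_Icc_self hτ))
      have h10 : 0 ≤ ‖s - s1‖ * (k * (2 * C)) * ‖u (s1 + (τ : ℂ) * (s - s1))‖ := by
        rcases Nat.eq_zero_or_pos k with h0 | h0
        · subst h0; simp
        · have h11 := (norm_nonneg _).trans (h9 ⟨0, h0⟩)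
          rw [mul_assoc]
          exact mul_nonneg (norm_nonneg _) h11
      rw [pi_norm_le_iff_of_nonneg h10]
      intro j
      rw [norm_mul, mul_assoc]
      exact mul_le_mul_of_nonneg_left (h9 j) (norm_nonneg _))
    1 ⟨by norm_num, le_rfl⟩
  intro i
  have h12 := congrFun hz i
  simpa [u] using h12

/-- the vectors `Z, Y0, F, F', ...` -/
private noncomputable def Gen8_W {m : ℕ} (F Y0 Y1 : ℂ → V m) (E0 E1 : ℂ → ℂ) : ℕ → ℂ → V m
  | 0 => fun s => E0 s • Y1 s - E1 s • Y0 s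
  | 1 => Y0
  | j + 2 => iteratedDeriv j F

/-- their derivatives -/
private noncomputable def Gen8_W' {m : ℕ} (F Y0 Y1 : ℂ → V m) (E0 E1 : ℂ → ℂ) : ℕ → ℂ → V m
  | 0 => fun s => deriv E0 s • Y1 s - deriv E1 s • Y0 s
  | 1 => fun s => E0 s • F s
  | j + 2 => iteratedDeriv (j + 1) F

private theorem Gen8_hasDeriv {m : ℕ} {z : ℂ} {r : ℝ} {F Y0 Y1 : ℂ → V m} {E0 E1 : ℂ → ℂ}
    (hF : DifferentiableOn ℂ F (Metric.ball z r))
    (dE0 : DifferentiableOn ℂ E0 (Metric.ball z r))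
    (dE1 : DifferentiableOn ℂ E1 (Metric.ball z r))
    (dY0 : ∀ s ∈ Metric.ball z r, HasDerivAt Y0 (E0 s • F s) s)
    (dY1 : ∀ s ∈ Metric.ball z r, HasDerivAt Y1 (E1 s • F s) s) (i : ℕ) {s : ℂ}
    (hs : s ∈ Metric.ball z r) :
    HasDerivAt (Gen8_W F Y0 Y1 E0 E1 i) (Gen8_W' F Y0 Y1 E0 E1 i s) s := by
  have hn : Metric.ball z r ∈ 𝓝 s := Metric.isOpen_ball.mem_nhds hs
  match i with
  | 0 =>
    have h0 := (dE0.differentiableAt hn).hasDerivAt
    have h1 := (dE1.differentiableAt hn).hasDerivAt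
    have h2 := (h0.smul (dY1 s hs)).sub (h1.smul (dY0 s hs))
    refine h2.congr_deriv ?_
    simp only [Gen8_W', smul_smul]
    rw [mul_comm (E1 s) (E0 s)]
    abel
  | 1 => exact dY0 s hs
  | j + 2 =>
    have ha : AnalyticAt ℂ F s := hF.analyticAt hn
    have hd : DifferentiableAt ℂ (iteratedDeriv j F) s := by
      rw [iteratedDeriv_eq_iterate]
      exact (ha.iterated_deriv j).differentiableAt
    have h := hd.hasDerivAt
    simp only [Gen8_W, Gen8_W']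
    rw [iteratedDeriv_succ]
    exact h

private theorem Gen8_cont {m : ℕ} {z : ℂ} {r : ℝ} {F Y0 Y1 : ℂ → V m} {E0 E1 : ℂ → ℂ}
    (hF : DifferentiableOn ℂ F (Metric.ball z r))
    (dE0 : DifferentiableOn ℂ E0 (Metric.ball z r))
    (dE1 : DifferentiableOn ℂ E1 (Metric.ball z r))
    (dY0 : ∀ s ∈ Metric.ball z r, HasDerivAt Y0 (E0 s • F s) s)
    (dY1 : ∀ s ∈ Metric.ball z r, HasDerivAt Y1 (E1 s • F s) s) (i : ℕ) {s : ℂ}
    (hs : s ∈ Metric.ball z r) : ContinuousAt (Gen8_W' F Y0 Y1 E0 E1 i) s := by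
  have hn : Metric.ball z r ∈ 𝓝 s := Metric.isOpen_ball.mem_nhds hs
  match i with
  | 0 =>
    have h0 : ContinuousAt (deriv E0) s := ((dE0.analyticAt hn).deriv).continuousAt
    have h1 : ContinuousAt (deriv E1) s := ((dE1.analyticAt hn).deriv).continuousAt
    exact (h0.smul (dY1 s hs).continuousAt).sub (h1.smul (dY0 s hs).continuousAt)
  | 1 =>
    exact (dE0.differentiableAt hn).continuousAt.smul (hF.differentiableAt hn).continuousAt
  | j + 2 =>
    have ha : AnalyticAt ℂ F s := hF.analyticAt hn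
    simp only [Gen8_W']
    rw [iteratedDeriv_eq_iterate]
    exact (ha.iterated_deriv (j + 1)).continuousAt

private theorem Gen8_step {m : ℕ} {z : ℂ} {r : ℝ} {F Y0 Y1 : ℂ → V m} {E0 E1 : ℂ → ℂ}
    (hF : DifferentiableOn ℂ F (Metric.ball z r))
    (dE0 : DifferentiableOn ℂ E0 (Metric.ball z r))
    (dE1 : DifferentiableOn ℂ E1 (Metric.ball z r))
    (dY0 : ∀ s ∈ Metric.ball z r, HasDerivAt Y0 (E0 s • F s) s)
    (dY1 : ∀ s ∈ Metric.ball z r, HasDerivAt Y1 (E1 s • F s) s)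
    (hsp : ∀ (s0 : ℂ) (r0 : ℝ), 0 < r0 → Metric.ball s0 r0 ⊆ Metric.ball z r →
      ∀ ξ : V m →L[ℂ] ℂ, (∀ s ∈ Metric.ball s0 r0, ξ (Y0 s) = 0) → ξ = 0)
    {s1 : ℂ} {ρ : ℝ} (hρ : 0 < ρ) (hsub : Metric.ball s1 ρ ⊆ Metric.ball z r)
    (hE0 : ∀ s ∈ Metric.ball s1 ρ, E0 s ≠ 0)
    (hw : ∀ s ∈ Metric.ball s1 ρ, E0 s * deriv E1 s - E1 s * deriv E0 s ≠ 0)
    {k : ℕ} (hk : k < m)
    (hli : ∀ s ∈ Metric.ball s1 ρ, LinearIndependent ℂ
      fun i : Fin k => Gen8_W F Y0 Y1 E0 E1 i s) :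
    ∃ s ∈ Metric.ball s1 ρ, LinearIndependent ℂ
      fun i : Fin (k + 1) => Gen8_W F Y0 Y1 E0 E1 i s := by
  by_contra hcon
  push Not at hcon
  have hs1 : s1 ∈ Metric.ball s1 ρ := Metric.mem_ball_self hρ
  have hmem : ∀ s ∈ Metric.ball s1 ρ, ∀ i ≤ k, Gen8_W F Y0 Y1 E0 E1 i s ∈
      Submodule.span ℂ (range fun j : Fin k => Gen8_W F Y0 Y1 E0 E1 j s) := by
    intro s hs i hi
    rcases Nat.lt_or_eq_of_le hi with h | h
    · exact Submodule.subset_span ⟨⟨i, h⟩, rfl⟩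
    · subst h
      by_contra h2
      exact hcon s hs (linearIndependent_finSucc'.2 ⟨hli s hs, h2⟩)
  have hder := fun (i : ℕ) (s : ℂ) (hs : s ∈ Metric.ball z r) =>
    Gen8_hasDeriv hF dE0 dE1 dY0 dY1 i hs
  -- the derivatives are in the span
  have hcl : ∀ s ∈ Metric.ball s1 ρ, ∀ i < k, Gen8_W' F Y0 Y1 E0 E1 i s ∈
      Submodule.span ℂ (range fun j : Fin k => Gen8_W F Y0 Y1 E0 E1 j s) := by
    intro s hs i hi
    match i, hi with
    | 0, hi =>
      have h0 := hmem s hs 0 hi.le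
      have h1 := hmem s hs 1 hi
      have h2 : Gen8_W' F Y0 Y1 E0 E1 0 s = (deriv E0 s / E0 s) • Gen8_W F Y0 Y1 E0 E1 0 s -
          ((E0 s * deriv E1 s - E1 s * deriv E0 s) / E0 s) • Gen8_W F Y0 Y1 E0 E1 1 s := by
        simp only [Gen8_W', Gen8_W]
        funext l
        simp only [Pi.sub_apply, Pi.smul_apply, smul_eq_mul]
        have := hE0 s hs
        field_simp
        ring
      rw [h2]
      exact Submodule.sub_mem _ (Submodule.smul_mem _ _ h0) (Submodule.smul_mem _ _ h1)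
    | 1, hi =>
      have h2 := hmem s hs 2 hi
      have h3 : Gen8_W' F Y0 Y1 E0 E1 1 s = E0 s • Gen8_W F Y0 Y1 E0 E1 2 s := by
        simp only [Gen8_W', Gen8_W, iteratedDeriv_zero]
      rw [h3]
      exact Submodule.smul_mem _ _ h2
    | j + 2, hi => exact hmem s hs (j + 3) hi
  rcases Nat.eq_zero_or_pos k with h0 | h0
  · -- `Z = 0`
    subst h0
    have hZ : ∀ s ∈ Metric.ball s1 ρ, Gen8_W F Y0 Y1 E0 E1 0 s = 0 := by
      intro s hs
      have h := hmem s hs 0 le_rfl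
      simpa using h
    have hZ' : ∀ s ∈ Metric.ball s1 ρ, Gen8_W' F Y0 Y1 E0 E1 0 s = 0 := by
      intro s hs
      have h1 := hder 0 s (hsub hs)
      have h2 : HasDerivAt (Gen8_W F Y0 Y1 E0 E1 0) 0 s := by
        refine (hasDerivAt_const s (0 : V m)).congr_of_eventuallyEq ?_
        filter_upwards [Metric.isOpen_ball.mem_nhds hs] with t ht
        exact hZ t ht
      exact h1.unique h2
    have hY : ∀ s ∈ Metric.ball s1 ρ, Y0 s = 0 := by
      intro s hs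
      have h1 := hZ s hs
      have h2 := hZ' s hs
      simp only [Gen8_W, Gen8_W'] at h1 h2
      have h3 : (E0 s * deriv E1 s - E1 s * deriv E0 s) • Y0 s = 0 := by
        have h4 : (E0 s * deriv E1 s - E1 s * deriv E0 s) • Y0 s =
            deriv E0 s • (E0 s • Y1 s - E1 s • Y0 s) -
              E0 s • (deriv E0 s • Y1 s - deriv E1 s • Y0 s) := by
          funext l
          simp only [Pi.sub_apply, Pi.smul_apply, smul_eq_mul]
          ring
        rw [h4, h1, h2, smul_zero, smul_zero, sub_zero]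
      exact (smul_eq_zero.1 h3).resolve_left (hw s hs)
    have h5 := hsp s1 ρ hρ hsub (ContinuousLinearMap.proj ⟨0, hk⟩) (fun s hs => by
      rw [hY s hs]; simp)
    have h6 := DFunLike.congr_fun h5 (Pi.single ⟨0, hk⟩ 1)
    simp at h6
  · -- a linear form
    have hlt : Submodule.span ℂ (range fun j : Fin k => Gen8_W F Y0 Y1 E0 E1 j s1) < ⊤ := by
      refine Submodule.lt_top_of_finrank_lt_finrank ?_
      have h1 := finrank_range_le_card (R := ℂ) fun j : Fin k => Gen8_W F Y0 Y1 E0 E1 j s1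
      rw [Fintype.card_fin] at h1
      have h2 : Module.finrank ℂ (V m) = m := by simp
      rw [Set.finrank] at h1
      omega
    obtain ⟨f, hf0, hf⟩ := Submodule.exists_le_ker_of_lt_top _ hlt
    let ξ : V m →L[ℂ] ℂ := LinearMap.toContinuousLinearMap f
    obtain ⟨ρ', hρ', hle, hz⟩ := Gen8_gron (k := k) (m := m) (s1 := s1) (ρ := ρ) hρ
      (W := fun i => Gen8_W F Y0 Y1 E0 E1 i) (W' := fun i => Gen8_W' F Y0 Y1 E0 E1 i)
      (fun i s hs => hder i s (hsub hs))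
      (fun i => Gen8_cont hF dE0 dE1 dY0 dY1 i (hsub hs1)) (hli s1 hs1)
      (fun i s hs => hcl s hs i i.2) (ξ := ξ)
      (fun i => hf (Submodule.subset_span ⟨i, rfl⟩))
    have hall : ∀ s ∈ Metric.ball s1 ρ', ξ (Y0 s) = 0 := by
      intro s hs
      have h1 := hmem s (Metric.ball_subset_ball hle hs) 1 h0
      have h2 : Submodule.span ℂ (range fun j : Fin k => Gen8_W F Y0 Y1 E0 E1 j s) ≤
          LinearMap.ker f := by
        rw [Submodule.span_le]
        rintro _ ⟨j, rfl⟩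
        exact hz s hs j
      exact h2 h1
    have h3 := hsp s1 ρ' hρ' ((Metric.ball_subset_ball hle).trans hsub) ξ hall
    apply hf0
    ext x
    have h4 := DFunLike.congr_fun h3 (Pi.single x 1)
    simpa [ξ] using h4

theorem exists_generic8 {m : ℕ} (hm : m = 8) {z : ℂ} {r : ℝ} {F Y0 Y1 : ℂ → V m} {E0 E1 : ℂ → ℂ}
    (hr : 0 < r) (hF : DifferentiableOn ℂ F (Metric.ball z r))
    (dE0 : DifferentiableOn ℂ E0 (Metric.ball z r))
    (dE1 : DifferentiableOn ℂ E1 (Metric.ball z r))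
    (dY0 : ∀ s ∈ Metric.ball z r, HasDerivAt Y0 (E0 s • F s) s)
    (dY1 : ∀ s ∈ Metric.ball z r, HasDerivAt Y1 (E1 s • F s) s)
    (hw : ∃ s ∈ Metric.ball z r, E0 s * deriv E1 s - E1 s * deriv E0 s ≠ 0)
    (hsp : ∀ (s0 : ℂ) (r0 : ℝ), 0 < r0 → Metric.ball s0 r0 ⊆ Metric.ball z r →
      ∀ ξ : V m →L[ℂ] ℂ, (∀ s ∈ Metric.ball s0 r0, ξ (Y0 s) = 0) → ξ = 0) :
    ∃ s0 ∈ Metric.ball z r, E0 s0 ≠ 0 ∧ E1 s0 ≠ 0 ∧
      E0 s0 * deriv E1 s0 - E1 s0 * deriv E0 s0 ≠ 0 ∧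
      LinearIndependent ℂ (vec8 s0 F Y0 Y1 E0 E1) := by
  have _ := hr
  -- a condition which holds at some point of every disc holds on a disc
  have cE : ∀ {E : ℂ → ℂ}, DifferentiableOn ℂ E (Metric.ball z r) → ∀ s ∈ Metric.ball z r,
      ContinuousAt E s ∧ ContinuousAt (deriv E) s := fun hE s hs => by
    have ha := hE.analyticAt (Metric.isOpen_ball.mem_nhds hs)
    exact ⟨ha.continuousAt, ha.deriv.continuousAt⟩
  have hopen : ∀ {g : ℂ → ℂ} {s1 : ℂ} {ρ : ℝ}, Metric.ball s1 ρ ⊆ Metric.ball z r →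
      (∀ s ∈ Metric.ball z r, ContinuousAt g s) → ∀ s ∈ Metric.ball s1 ρ, g s ≠ 0 →
      ∃ ρ', 0 < ρ' ∧ Metric.ball s ρ' ⊆ Metric.ball s1 ρ ∧ ∀ t ∈ Metric.ball s ρ', g t ≠ 0 := by
    intro g s1 ρ hsub hg s hs hgs
    have h1 := (hg s (hsub hs)).eventually_ne hgs
    have h2 : ∀ᶠ t in 𝓝 s, t ∈ Metric.ball s1 ρ ∧ g t ≠ 0 :=
      (Metric.isOpen_ball.eventually_mem hs).and h1
    obtain ⟨ρ', hρ', h3⟩ := Metric.eventually_nhds_iff_ball.1 h2
    exact ⟨ρ', hρ', fun t ht => (h3 t ht).1, fun t ht => (h3 t ht).2⟩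
  obtain ⟨sa, hsa, hwa⟩ := hw
  obtain ⟨ra, hra, hsuba, hwa'⟩ := hopen (g := fun s => E0 s * deriv E1 s - E1 s * deriv E0 s)
    subset_rfl (fun s hs => ((cE dE0 s hs).1.mul (cE dE1 s hs).2).sub
      ((cE dE1 s hs).1.mul (cE dE0 s hs).2)) sa hsa hwa
  -- `E0` is not zero on this disc
  have hnz : ∀ {E : ℂ → ℂ} {s1 : ℂ} {ρ : ℝ}, 0 < ρ → Metric.ball s1 ρ ⊆ Metric.ball z r →
      DifferentiableOn ℂ E (Metric.ball z r) →
      (∀ s ∈ Metric.ball s1 ρ, E s = 0 → deriv E s = 0 → False) →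
      ∃ s ∈ Metric.ball s1 ρ, E s ≠ 0 := by
    intro E s1 ρ hρ hsub hE hh
    by_contra hcon
    push Not at hcon
    have hs1 := Metric.mem_ball_self hρ (x := s1)
    refine hh s1 hs1 (hcon s1 hs1) ?_
    have h1 : E =ᶠ[𝓝 s1] fun _ => 0 := by
      filter_upwards [Metric.isOpen_ball.mem_nhds hs1] with t ht using hcon t ht
    rw [h1.deriv_eq]
    simp
  obtain ⟨sb, hsb, hEb⟩ := hnz hra hsuba dE0 (fun s hs h1 h2 => hwa' s hs (by
    simp only [h1, h2]; ring))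
  obtain ⟨rb, hrb, hsubb, hEb'⟩ := hopen hsuba (fun s hs => (cE dE0 s hs).1) sb hsb hEb
  obtain ⟨sc, hsc, hEc⟩ := hnz hrb (hsubb.trans hsuba) dE1 (fun s hs h1 h2 =>
    hwa' s (hsubb hs) (by simp only [h1, h2]; ring))
  obtain ⟨rc, hrc, hsubc, hEc'⟩ := hopen (hsubb.trans hsuba) (fun s hs => (cE dE1 s hs).1) sc hsc
    hEc
  have hsubz := hsubc.trans (hsubb.trans hsuba)
  have hli : ∀ k ≤ m, ∃ (s1 : ℂ) (ρ : ℝ), 0 < ρ ∧ Metric.ball s1 ρ ⊆ Metric.ball sc rc ∧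
      ∀ s ∈ Metric.ball s1 ρ, LinearIndependent ℂ
        fun i : Fin k => Gen8_W F Y0 Y1 E0 E1 i s := by
    intro k
    induction k with
    | zero =>
      intro _
      exact ⟨sc, rc, hrc, subset_rfl, fun s _ => linearIndependent_empty_type⟩
    | succ k ih =>
      intro hk
      obtain ⟨s1, ρ, hρ, hsub, h⟩ := ih (by omega)
      have hsub' := hsub.trans hsubz
      obtain ⟨s2, hs2, h2⟩ := Gen8_step hF dE0 dE1 dY0 dY1 hsp hρ hsub'
        (fun s hs => hEb' s (hsubc (hsub hs)))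
        (fun s hs => hwa' s (hsubb (hsubc (hsub hs)))) (by omega) h
      have h3 : ContinuousAt (fun s => fun i : Fin (k + 1) => Gen8_W F Y0 Y1 E0 E1 i s) s2 :=
        continuousAt_pi.2 fun i =>
          (Gen8_hasDeriv hF dE0 dE1 dY0 dY1 i (hsub' hs2)).continuousAt
      have h4 : ∀ᶠ t in 𝓝 s2, LinearIndependent ℂ
          fun i : Fin (k + 1) => Gen8_W F Y0 Y1 E0 E1 i t :=
        h3.eventually (isOpen_setOfPred_linearIndependent.eventually_mem h2)
      have h5 := (Metric.isOpen_ball.eventually_mem hs2).and h4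
      obtain ⟨ρ', hρ', h6⟩ := Metric.eventually_nhds_iff_ball.1 h5
      exact ⟨s2, ρ', hρ', fun t ht => hsub (h6 t ht).1, fun t ht => (h6 t ht).2⟩
  obtain ⟨s1, ρ, hρ, hsub, h⟩ := hli 8 hm.ge
  have hs1 := Metric.mem_ball_self hρ (x := s1)
  refine ⟨s1, hsubz (hsub hs1), hEb' s1 (hsubc (hsub hs1)), hEc' s1 (hsub hs1),
    hwa' s1 (hsubb (hsubc (hsub hs1))), ?_⟩
  have h7 : vec8 s1 F Y0 Y1 E0 E1 = fun i : Fin 8 => Gen8_W F Y0 Y1 E0 E1 i s1 := by
    funext i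
    refine Fin.cases ?_ (fun i => ?_) i
    · rfl
    · refine Fin.cases ?_ (fun i => ?_) i
      · rfl
      · rfl
  rw [h7]
  exact h s1 hs1

end Stek.Sv
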