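import Pool.Agent.H.MP_fc2485_gt.Sv.F7B
import Pool.Agent.H.MP_fc2485_gt.Sv8.Gen8

/-!
Case B is impossible for `m ≤ 8`: for `m ≤ 7` this is `coprop_ne`; for `m = 8`, at a generic point
take covering forms for `(z + a_k, z)` of norm one (cov_reach), a convergent subsequence
(`BC M e` is finite-dimensional), limit_order and caseB_local8.
-/

set_option maxSynthPendingDepth 3

open Set Filter Topology InnerProductSpace
open scoped ContDiff

namespace Stek.Sv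

open Stek Surface GCell

variable {S : Type*} [TopologicalSpace S] {M : Surface S} {σ : ℝ} {m : ℕ} {e : Fin m → S → ℝ}
  {G : Bl m}

theorem F8B_comp (H : Ctx M σ e G) {C C' : Set S} (hC : C ⊆ M.bdry) (hC' : C' ⊆ M.bdry)
    {c c' : GCell M e G} (hc : Reach C c) (hc' : Reach C' c') (hφ : c.φ = c'.φ) {z : ℂ} {r : ℝ}
    (hO : Metric.ball z r ⊆ c.O) (hO' : Metric.ball z r ⊆ c'.O) {Q : Bl m} {τ : ℂ}
    (hQ : InB M e Q τ) : Comp2 z r (Fv c.φ e 0) c'.Y c.Y c'.E c.E Q τ := by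
  have dE2 : ∀ s ∈ Metric.ball z r, deriv c'.E s = G (c'.Y s) (Fv c.φ e 0 s) := fun s hs => by
    rw [hφ]
    exact (c'.dEat (hO' hs)).deriv
  have dE1 : ∀ s ∈ Metric.ball z r, deriv c.E s = G (c.Y s) (Fv c.φ e 0 s) :=
    fun s hs => (c.dEat (hO hs)).deriv
  refine ⟨hQ.symm, ?_, ?_, ?_, ?_, ?_⟩
  · intro s hs
    exact hQ.conf c.φ c.hφ s (c.sub (RectI_sub _ _ _ _ (hO hs)))
  · intro s hs
    have := good H hC' hc' hQ s (RectI_sub _ _ _ _ (hO' hs))
    rw [← hφ] at this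
    rw [this, dE2 s hs]
  · intro s hs
    rw [good H hC hc hQ s (RectI_sub _ _ _ _ (hO hs)), dE1 s hs]
  · intro s hs
    exact quad H hC' hc' hQ s (RectI_sub _ _ _ _ (hO' hs))
  · intro s hs
    exact quad H hC hc hQ s (RectI_sub _ _ _ _ (hO hs))

/-- covering forms of norm one -/
theorem F8B_norm {c c' : GCell M e G} (h : CovR c c') {x y : ℂ} (hx : x ∈ c.K) (hy : y ∈ c'.K) :
    ∃ Q ∈ BC M e, ‖Q‖ = 1 ∧ Q (c'.E y • c.Y x - c.E x • c'.Y y) = 0 := by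
  obtain ⟨Q, h1, h2, h3⟩ := h x hx y hy
  have h4 : ‖Q‖ ≠ 0 := norm_ne_zero_iff.mpr h2
  refine ⟨((‖Q‖⁻¹ : ℝ) : ℂ) • Q, (BC M e).smul_mem _ h1, ?_, ?_⟩
  · rw [norm_smul, Complex.norm_real, norm_inv, norm_norm]
    exact inv_mul_cancel₀ h4
  · rw [smul_apply, h3, smul_zero]

theorem coprop_ne8 [ConnectedSpace S] (H : Ctx M σ e G) (hm2 : 2 ≤ m) (hm : m ≤ 8)
    (hcov : Covd M e)
    (hnd : ∀ (D : V m) (φ : Chart S), φ ∈ M.charts → ∀ z ∈ φ.map.target, 0 < z.im →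
      (∀ᶠ w in 𝓝 z, ∀ Q, InK M e Q → Q D (Fv φ e 0 w) = 0) → D = 0)
    {C C' : Set S} (hC : IsCC M C) (hC' : IsCC M C') (hne : C ≠ C') {c c' : GCell M e G}
    (hc : Reach C c) (hc' : Reach C' c') : CoProp c c' := by
  rcases Nat.lt_or_ge m 8 with h7 | h8
  · exact coprop_ne H hm2 (by omega) hcov hnd hC hC' hne hc hc'
  have hm8 : m = 8 := le_antisymm hm h8
  intro hφ z hz hz'
  by_contra hno
  obtain ⟨r, hr, hball⟩ := Metric.mem_nhds_iff.mp
    (inter_mem ((isOpen_RectI c.a c.b c.c c.d).mem_nhds hz)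
      ((isOpen_RectI c'.a c'.b c'.c c'.d).mem_nhds hz'))
  have hO : Metric.ball z r ⊆ c.O := fun s hs => (hball hs).1
  have hO' : Metric.ball z r ⊆ c'.O := fun s hs => (hball hs).2
  obtain ⟨s0, hs0, hw⟩ := F7B_wron H hm2 hnd hC.sub hC'.sub hc hc' hφ hr hO hO' hno
  have dE2 : ∀ s ∈ Metric.ball z r, HasDerivAt c'.E (G (c'.Y s) (Fv c.φ e 0 s)) s :=
    fun s hs => by
      rw [hφ]
      exact c'.dEat (hO' hs)
  have dY2 : ∀ s ∈ Metric.ball z r, HasDerivAt c'.Y (c'.E s • Fv c.φ e 0 s) s := fun s hs => by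
    rw [hφ]
    exact c'.dYat (hO' hs)
  have dE1 : ∀ s ∈ Metric.ball z r, HasDerivAt c.E (G (c.Y s) (Fv c.φ e 0 s)) s :=
    fun s hs => c.dEat (hO hs)
  have dY1 : ∀ s ∈ Metric.ball z r, HasDerivAt c.Y (c.E s • Fv c.φ e 0 s) s :=
    fun s hs => c.dYat (hO hs)
  have hF : DifferentiableOn ℂ (Fv c.φ e 0) (Metric.ball z r) :=
    (Props_niceF H c).holo.mono hO
  obtain ⟨s1, hs1, hE0, hE1, hw1, hli⟩ := exists_generic8 hm8 hr hF
    (fun s hs => (dE2 s hs).differentiableAt.differentiableWithinAt)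
    (fun s hs => (dE1 s hs).differentiableAt.differentiableWithinAt) dY2 dY1
    ⟨s0, hs0, by rwa [(dE1 s0 hs0).deriv, (dE2 s0 hs0).deriv]⟩
    (fun s2 r2 hr2 hb2 ξ hξ => spanning H hC'.sub hc' hr2 (hb2.trans hO') ξ hξ)
  obtain ⟨r1, hr1, hb1⟩ := Metric.mem_nhds_iff.mp (Metric.isOpen_ball.mem_nhds hs1)
  -- the data at the generic point
  have D : Two s1 r1 (Fv c.φ e 0) c'.Y c.Y c'.E c.E :=
    ⟨hr1, hF.mono hb1, fun s hs => (dE2 s (hb1 hs)).differentiableAt.differentiableWithinAt,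
      fun s hs => (dE1 s (hb1 hs)).differentiableAt.differentiableWithinAt,
      fun s hs => dY2 s (hb1 hs), fun s hs => dY1 s (hb1 hs), hE0, hE1, hw1⟩
  let a : ℕ → ℂ := fun k => ((r1 / (k + 2) : ℝ) : ℂ)
  have ha0 : ∀ k, a k ≠ 0 := by
    intro k
    have : (0 : ℝ) < r1 / (k + 2) := by positivity
    simp only [a]
    exact_mod_cast this.ne'
  have hta : Tendsto a atTop (𝓝 0) := by
    have h1 : Tendsto (fun k : ℕ => r1 / ((k : ℝ) + 2)) atTop (𝓝 0) :=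
      Tendsto.div_atTop tendsto_const_nhds
        (tendsto_atTop_add_const_right _ _ tendsto_natCast_atTop_atTop)
    have h2 := (Complex.continuous_ofReal.tendsto (0 : ℝ)).comp h1
    rw [Complex.ofReal_zero] at h2
    exact h2
  have hab : ∀ k, s1 + a k ∈ Metric.ball s1 r1 := by
    intro k
    rw [Metric.mem_ball, dist_eq_norm, add_sub_cancel_left]
    simp only [a]
    rw [Complex.norm_real, Real.norm_eq_abs, abs_of_pos (by positivity)]
    rw [div_lt_iff₀ (by positivity)]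
    have : (0 : ℝ) ≤ k := Nat.cast_nonneg k
    nlinarith
  have hs1' : s1 ∈ Metric.ball s1 r1 := Metric.mem_ball_self hr1
  have hcr := cov_reach H hcov hC hC' hne hc hc'
  choose T hT1 hT2 hT3 using fun k : ℕ => F8B_norm hcr
    (x := s1 + a k) (y := s1) (RectI_sub _ _ _ _ (hO (hb1 (hab k))))
    (RectI_sub _ _ _ _ (hO' (hb1 hs1')))
  choose θ hθ using fun k : ℕ => mem_BC.mp (hT1 k)
  have : ProperSpace (Bl m) := FiniteDimensional.proper ℂ (Bl m)
  obtain ⟨T0, hT0, ψ, hψ, hlim⟩ := (isCompact_sphere (0 : Bl m) 1).tendsto_subseq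
    (x := T) (fun k => by rw [mem_sphere_zero_iff_norm]; exact hT2 k)
  have hT0n : T0 ≠ 0 := by
    intro h0
    rw [mem_sphere_zero_iff_norm, h0, norm_zero] at hT0
    exact zero_ne_one hT0
  obtain ⟨l1, l2, l3, l4, l5⟩ := limit_order D (a := a ∘ ψ) (hta.comp hψ.tendsto_atTop)
    (fun k => ha0 (ψ k)) (fun k => hab (ψ k)) (T := T ∘ ψ) (θ := θ ∘ ψ) hlim
    (fun k => F8B_comp H hC.sub hC'.sub hc hc' hφ (hb1.trans hO) (hb1.trans hO') (hθ (ψ k)))
    (fun k => hT3 (ψ k))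
  exact caseB_local8 hm8 D
    (fun ξ hξ => spanning H hC'.sub hc' hr1 (hb1.trans hO') ξ hξ) hli hT0n l1 l2 l3 l4 l5

end Stek.Sv
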