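import Pool.Agent.H.MP_fc2485_gt.Sv.LocB

/-!
Case B for `m = 8`, step 1 (helper46): limits of covering forms. `q_k(s,r) = T_k(F(s),F(r))` is
symmetric and divisible by `(s-r)²`, `q = (s-r)² p`, `t_ij` its Taylor coefficients at `(z,z)`,
`p_00 = t_02`, `p_10 = t_03`. For every `r`, with `e(s) = E1(s) - (E1(z+a)/E0(z)) E0(s)`,
`θ e'(r) + ∫_r^z e(s) q(s,r) ds + ∫_z^{z+a} E1(s) q(s,r) ds = 0` (it is
`T(E0(z) Y1(z+a) - E1(z+a) Y0(z), F(r)) / E0(z)`). Coefficients of `r^0, r^2, r^3, r^4`: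
`θ = O(a³ p_00 + a⁴ p_10 + a⁵)`, `p_00 = O(a p_10 + a²)`, `p_10 = O(p_00 + a)`, so `p_00 = O(a²)`,
`p_10 = O(a)`, then `t_04 = O(a)`. So the limit form has `t_02 = t_03 = t_04 = 0`, and it is in the
class of `caseB_local` (`θ = 0`, kernel contains `Z`).
-/

set_option maxSynthPendingDepth 3

open Set Filter Topology

namespace Stek.Sv

/-- the data of two solutions near `z` -/
structure Two {m : ℕ} (z : ℂ) (r : ℝ) (F Y0 Y1 : ℂ → V m) (E0 E1 : ℂ → ℂ) : Prop where
  hr : 0 < r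
  hF : DifferentiableOn ℂ F (Metric.ball z r)
  dE0 : DifferentiableOn ℂ E0 (Metric.ball z r)
  dE1 : DifferentiableOn ℂ E1 (Metric.ball z r)
  dY0 : ∀ s ∈ Metric.ball z r, HasDerivAt Y0 (E0 s • F s) s
  dY1 : ∀ s ∈ Metric.ball z r, HasDerivAt Y1 (E1 s • F s) s
  hE0 : E0 z ≠ 0
  hE1 : E1 z ≠ 0
  hw : E0 z * deriv E1 z - E1 z * deriv E0 z ≠ 0

/-- a form compatible with the two solutions, with trace `θ` -/
structure Comp2 {m : ℕ} (z : ℂ) (r : ℝ) (F Y0 Y1 : ℂ → V m) (E0 E1 : ℂ → ℂ) (T : Bl m) (θ : ℂ) :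
    Prop where
  symm : ∀ v w, T v w = T w v
  hFF : ∀ s ∈ Metric.ball z r, T (F s) (F s) = 0
  hYF0 : ∀ s ∈ Metric.ball z r, T (Y0 s) (F s) = θ * deriv E0 s
  hYF1 : ∀ s ∈ Metric.ball z r, T (Y1 s) (F s) = θ * deriv E1 s
  hYY0 : ∀ s ∈ Metric.ball z r, T (Y0 s) (Y0 s) = θ * E0 s ^ 2
  hYY1 : ∀ s ∈ Metric.ball z r, T (Y1 s) (Y1 s) = θ * E1 s ^ 2

private theorem lim8_jet {X : Type*} [NormedAddCommGroup X] [NormedSpace ℂ X] [CompleteSpace X]
    {f : ℂ → X} {z : ℂ} {r : ℝ} (hf : DifferentiableOn ℂ f (Metric.ball z r)) (j : ℕ) :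
    ∀ s ∈ Metric.ball z r, HasDerivAt (iteratedDeriv j f) (iteratedDeriv (j + 1) f s) s := by
  intro s hs
  have h1 := (hf.analyticOnNhd Metric.isOpen_ball).iterated_deriv j
  rw [← iteratedDeriv_eq_iterate] at h1
  have h2 := (h1 s hs).differentiableAt.hasDerivAt
  rwa [← iteratedDeriv_succ] at h2

private theorem lim8_bil {m : ℕ} (T : Bl m) {X W : ℂ → V m} {X' W' : V m} {s : ℂ}
    (hX : HasDerivAt X X' s) (hW : HasDerivAt W W' s) :
    HasDerivAt (fun s => T (X s) (W s)) (T X' (W s) + T (X s) W') s :=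
  (T.hasFDerivAt.comp_hasDerivAt s hX).clm_apply hW

private theorem lim8_eq {g h : ℂ → ℂ} {z : ℂ} {r : ℝ} (hgh : ∀ s ∈ Metric.ball z r, g s = h s)
    {s : ℂ} (hs : s ∈ Metric.ball z r) {g' h' : ℂ} (hg : HasDerivAt g g' s)
    (hh : HasDerivAt h h' s) : g' = h' := by
  apply hg.unique
  apply hh.congr_of_eventuallyEq
  filter_upwards [Metric.isOpen_ball.mem_nhds hs] with w hw using hgh w hw

/-- the relations between the derivatives of an isotropic curve -/
private theorem lim8_a {m : ℕ} {z : ℂ} {r : ℝ} {F : ℂ → V m}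
    (hF : DifferentiableOn ℂ F (Metric.ball z r)) (T : Bl m) (symm : ∀ v w, T v w = T w v)
    (hFF : ∀ s ∈ Metric.ball z r, T (F s) (F s) = 0) :
    (∀ s ∈ Metric.ball z r, T (F s) (iteratedDeriv 1 F s) = 0) ∧
    (∀ s ∈ Metric.ball z r, T (iteratedDeriv 1 F s) (iteratedDeriv 1 F s) +
      T (F s) (iteratedDeriv 2 F s) = 0) ∧
    (∀ s ∈ Metric.ball z r, 3 * T (iteratedDeriv 1 F s) (iteratedDeriv 2 F s) +
      T (F s) (iteratedDeriv 3 F s) = 0) := by
  have h0 : ∀ s ∈ Metric.ball z r, HasDerivAt F (iteratedDeriv 1 F s) s := by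
    intro s hs
    have := lim8_jet hF 0 s hs
    rwa [iteratedDeriv_zero] at this
  have a1 : ∀ s ∈ Metric.ball z r, T (F s) (iteratedDeriv 1 F s) = 0 := by
    intro s hs
    have h1 := lim8_eq hFF hs (lim8_bil T (h0 s hs) (h0 s hs)) (hasDerivAt_const s 0)
    rw [symm (iteratedDeriv 1 F s) (F s)] at h1
    linear_combination h1 / 2
  have a2 : ∀ s ∈ Metric.ball z r, T (iteratedDeriv 1 F s) (iteratedDeriv 1 F s) +
      T (F s) (iteratedDeriv 2 F s) = 0 := fun s hs =>
    lim8_eq a1 hs (lim8_bil T (h0 s hs) (lim8_jet hF 1 s hs)) (hasDerivAt_const s 0)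
  have a3 : ∀ s ∈ Metric.ball z r, 3 * T (iteratedDeriv 1 F s) (iteratedDeriv 2 F s) +
      T (F s) (iteratedDeriv 3 F s) = 0 := by
    intro s hs
    have h1 := lim8_eq a2 hs ((lim8_bil T (lim8_jet hF 1 s hs) (lim8_jet hF 1 s hs)).add
      (lim8_bil T (h0 s hs) (lim8_jet hF 2 s hs))) (hasDerivAt_const s 0)
    rw [symm (iteratedDeriv (1 + 1) F s) (iteratedDeriv 1 F s)] at h1
    linear_combination h1
  exact ⟨a1, a2, a3⟩

/-- the pairings of a solution with the derivatives -/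
private theorem lim8_b {m : ℕ} {z : ℂ} {r : ℝ} {F Y : ℂ → V m} {E : ℂ → ℂ}
    (hF : DifferentiableOn ℂ F (Metric.ball z r)) (hE : DifferentiableOn ℂ E (Metric.ball z r))
    (dY : ∀ s ∈ Metric.ball z r, HasDerivAt Y (E s • F s) s) (T : Bl m)
    (symm : ∀ v w, T v w = T w v) (hFF : ∀ s ∈ Metric.ball z r, T (F s) (F s) = 0) {θ : ℂ}
    (hYF : ∀ s ∈ Metric.ball z r, T (Y s) (F s) = θ * deriv E s) {s : ℂ}
    (hs : s ∈ Metric.ball z r) :
    T (Y s) (iteratedDeriv 2 F s) = θ * iteratedDeriv 3 E s ∧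
    T (Y s) (iteratedDeriv 3 F s) = θ * iteratedDeriv 4 E s - E s * T (F s) (iteratedDeriv 2 F s) ∧
    T (Y s) (iteratedDeriv 4 F s) = θ * iteratedDeriv 5 E s -
      deriv E s * T (F s) (iteratedDeriv 2 F s) -
      5 / 3 * E s * T (F s) (iteratedDeriv 3 F s) := by
  obtain ⟨a1, a2, a3⟩ := lim8_a hF T symm hFF
  have h0 : ∀ s ∈ Metric.ball z r, HasDerivAt F (iteratedDeriv 1 F s) s := by
    intro s hs
    have := lim8_jet hF 0 s hs
    rwa [iteratedDeriv_zero] at this
  have e0 : ∀ s ∈ Metric.ball z r, HasDerivAt E (deriv E s) s := by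
    intro s hs
    have := lim8_jet hE 0 s hs
    rwa [iteratedDeriv_zero, iteratedDeriv_one] at this
  have e1 : ∀ s ∈ Metric.ball z r, HasDerivAt (deriv E) (iteratedDeriv 2 E s) s := by
    intro s hs
    have := lim8_jet hE 1 s hs
    rwa [iteratedDeriv_one] at this
  have b1 : ∀ s ∈ Metric.ball z r, T (Y s) (iteratedDeriv 1 F s) = θ * iteratedDeriv 2 E s := by
    intro s hs
    have h1 := lim8_eq hYF hs (lim8_bil T (dY s hs) (h0 s hs)) ((e1 s hs).const_mul θ)
    rw [map_smul, smul_apply, smul_eq_mul, hFF s hs, mul_zero, zero_add] at h1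
    exact h1
  have b2 : ∀ s ∈ Metric.ball z r, T (Y s) (iteratedDeriv 2 F s) = θ * iteratedDeriv 3 E s := by
    intro s hs
    have h1 := lim8_eq b1 hs (lim8_bil T (dY s hs) (lim8_jet hF 1 s hs))
      ((lim8_jet hE 2 s hs).const_mul θ)
    rw [map_smul, smul_apply, smul_eq_mul, a1 s hs, mul_zero, zero_add] at h1
    exact h1
  have b3 : ∀ s ∈ Metric.ball z r, T (Y s) (iteratedDeriv 3 F s) =
      θ * iteratedDeriv 4 E s - E s * T (F s) (iteratedDeriv 2 F s) := by
    intro s hs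
    have h1 := lim8_eq b2 hs (lim8_bil T (dY s hs) (lim8_jet hF 2 s hs))
      ((lim8_jet hE 3 s hs).const_mul θ)
    rw [map_smul, smul_apply, smul_eq_mul] at h1
    linear_combination h1
  refine ⟨b2 s hs, b3 s hs, ?_⟩
  have h1 := lim8_eq b3 hs (lim8_bil T (dY s hs) (lim8_jet hF 3 s hs))
    (((lim8_jet hE 4 s hs).const_mul θ).sub
      ((e0 s hs).mul (lim8_bil T (h0 s hs) (lim8_jet hF 2 s hs))))
  rw [map_smul, smul_apply, smul_eq_mul] at h1
  have h2 := a3 s hs
  simp only [Nat.reduceAdd] at h1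
  linear_combination h1 - E s / 3 * h2

/-- the second order difference quotient -/
private theorem lim8_quot {m : ℕ} {z : ℂ} {r : ℝ} {F Y : ℂ → V m} {E : ℂ → ℂ} (hr : 0 < r)
    (hF : DifferentiableOn ℂ F (Metric.ball z r)) (hE : DifferentiableOn ℂ E (Metric.ball z r))
    (dY : ∀ s ∈ Metric.ball z r, HasDerivAt Y (E s • F s) s) :
    ∃ D : ℂ → V m, (∀ s, Y s = Y z + (s - z) • (E z • F z) + (s - z) ^ 2 • D s) ∧
      ContinuousAt D z ∧
      (2 : ℂ) • D z = deriv E z • F z + E z • iteratedDeriv 1 F z := by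
  have hball : Metric.ball z r ∈ 𝓝 z := Metric.ball_mem_nhds z hr
  have hz : z ∈ Metric.ball z r := Metric.mem_ball_self hr
  have dYd : DifferentiableOn ℂ Y (Metric.ball z r) := fun s hs =>
    (dY s hs).differentiableAt.differentiableWithinAt
  have d1 : DifferentiableOn ℂ (dslope Y z) (Metric.ball z r) :=
    (Complex.differentiableOn_dslope hball).mpr dYd
  have d2 : DifferentiableOn ℂ (dslope (dslope Y z) z) (Metric.ball z r) :=
    (Complex.differentiableOn_dslope hball).mpr d1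
  have hq : ∀ s, Y s = Y z + (s - z) • dslope Y z s := by
    intro s
    rw [sub_smul_dslope]
    abel
  refine ⟨dslope (dslope Y z) z, ?_, (d2.differentiableAt hball).continuousAt, ?_⟩
  · intro s
    have h1 : dslope Y z s = dslope Y z z + (s - z) • dslope (dslope Y z) z s := by
      rw [sub_smul_dslope]
      abel
    have h2 : dslope Y z z = E z • F z := by
      rw [dslope_same, (dY z hz).deriv]
    rw [hq s, h1, h2]
    module
  · rw [dslope_same]
    have hj : ∀ s ∈ Metric.ball z r, HasDerivAt (dslope Y z) (deriv (dslope Y z) s) s := fun s hs =>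
      (d1.differentiableAt (Metric.isOpen_ball.mem_nhds hs)).hasDerivAt
    have hj2 : HasDerivAt (deriv (dslope Y z)) (iteratedDeriv 2 (dslope Y z) z) z := by
      have := lim8_jet d1 1 z hz
      rwa [iteratedDeriv_one] at this
    have h1 : ∀ s ∈ Metric.ball z r, E s • F s =
        dslope Y z s + (s - z) • deriv (dslope Y z) s := by
      intro s hs
      have h2 : HasDerivAt (fun s => Y z + (s - z) • dslope Y z s)
          ((s - z) • deriv (dslope Y z) s + (1 : ℂ) • dslope Y z s) s :=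
        (((hasDerivAt_id s).sub_const z).smul (hj s hs)).const_add (Y z)
      have h3 := (dY s hs).unique (h2.congr_of_eventuallyEq (Eventually.of_forall hq))
      rw [h3, one_smul]
      abel
    have h0 : HasDerivAt F (iteratedDeriv 1 F z) z := by
      have := lim8_jet hF 0 z hz
      rwa [iteratedDeriv_zero] at this
    have e0 : HasDerivAt E (deriv E z) z := by
      have := lim8_jet hE 0 z hz
      rwa [iteratedDeriv_zero, iteratedDeriv_one] at this
    have h4 := e0.smul h0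
    have h5 : HasDerivAt (fun s => dslope Y z s + (s - z) • deriv (dslope Y z) s)
        (deriv (dslope Y z) z + ((z - z) • iteratedDeriv 2 (dslope Y z) z +
          (1 : ℂ) • deriv (dslope Y z) z)) z :=
      (hj z hz).add (((hasDerivAt_id z).sub_const z).smul hj2)
    have h6 : HasDerivAt (fun s => E s • F s)
        (deriv (dslope Y z) z + ((z - z) • iteratedDeriv 2 (dslope Y z) z +
          (1 : ℂ) • deriv (dslope Y z) z)) z := by
      apply h5.congr_of_eventuallyEq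
      filter_upwards [hball] with s hs using h1 s hs
    have h7 := h4.unique h6
    rw [sub_self, zero_smul, zero_add, one_smul, ← two_smul ℂ] at h7
    rw [← h7]
    abel

private theorem lim8_apply {X X' : Type*} [NormedAddCommGroup X] [NormedSpace ℂ X]
    [NormedAddCommGroup X'] [NormedSpace ℂ X'] {L : ℕ → X →L[ℂ] X'} {L0 : X →L[ℂ] X'} {u : ℕ → X}
    {u0 : X} (hL : Tendsto L atTop (𝓝 L0)) (hu : Tendsto u atTop (𝓝 u0)) :
    Tendsto (fun k => L k (u k)) atTop (𝓝 (L0 u0)) := by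
  have h1 : Continuous fun p : (X →L[ℂ] X') × X => p.1 p.2 :=
    (isBoundedBilinearMap_apply (𝕜 := ℂ)).continuous
  exact (h1.tendsto (L0, u0)).comp (hL.prodMk_nhds hu)

private theorem lim8_cancel {u c : ℕ → ℂ} {c0 : ℂ} (h : Tendsto (fun k => u k * c k) atTop (𝓝 0))
    (hc : Tendsto c atTop (𝓝 c0)) (h0 : c0 ≠ 0) : Tendsto u atTop (𝓝 0) := by
  have h1 := h.div hc h0
  rw [zero_div] at h1
  apply h1.congr'
  filter_upwards [hc.eventually_ne h0] with k hk
  exact mul_div_cancel_right₀ _ hk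

/-- limits of covering forms vanish to higher order on the diagonal -/
theorem limit_order {m : ℕ} {z : ℂ} {r : ℝ} {F Y0 Y1 : ℂ → V m} {E0 E1 : ℂ → ℂ}
    (D : Two z r F Y0 Y1 E0 E1) {a : ℕ → ℂ} (ha : Tendsto a atTop (𝓝 0)) (ha0 : ∀ k, a k ≠ 0)
    (hab : ∀ k, z + a k ∈ Metric.ball z r) {T : ℕ → Bl m} {θ : ℕ → ℂ} {T0 : Bl m}
    (hT : Tendsto T atTop (𝓝 T0)) (hc : ∀ k, Comp2 z r F Y0 Y1 E0 E1 (T k) (θ k))
    (hcov : ∀ k, T k (E0 z • Y1 (z + a k) - E1 (z + a k) • Y0 z) = 0) :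
    Comp2 z r F Y0 Y1 E0 E1 T0 0 ∧ T0 (E0 z • Y1 z - E1 z • Y0 z) = 0 ∧
      T0 (F z) (iteratedDeriv 2 F z) = 0 ∧ T0 (F z) (iteratedDeriv 3 F z) = 0 ∧
      T0 (F z) (iteratedDeriv 4 F z) = 0 := by
  obtain ⟨hr, hF, dE0, dE1, dY0, dY1, hE0, hE1, hw⟩ := D
  have hz : z ∈ Metric.ball z r := Metric.mem_ball_self hr
  obtain ⟨Dq, hD1, hD2, hD3⟩ := lim8_quot hr hF dE1 dY1
  -- limits
  have hTT : ∀ {u : ℕ → V m} {u0 : V m} (v : V m), Tendsto u atTop (𝓝 u0) →
      Tendsto (fun k => T k (u k) v) atTop (𝓝 (T0 u0 v)) := fun v hu =>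
    lim8_apply (lim8_apply hT hu) tendsto_const_nhds
  have hTc : ∀ u v : V m, Tendsto (fun k => T k u v) atTop (𝓝 (T0 u v)) := fun u v =>
    hTT v tendsto_const_nhds
  have hza : Tendsto (fun k => z + a k) atTop (𝓝 z) := by
    simpa using (tendsto_const_nhds (x := z)).add ha
  have hDk : Tendsto (fun k => Dq (z + a k)) atTop (𝓝 (Dq z)) := hD2.tendsto.comp hza
  have hE1d : HasDerivAt E1 (deriv E1 z) z :=
    (dE1.differentiableAt (Metric.ball_mem_nhds z hr)).hasDerivAt
  have hEk : Tendsto (fun k => E1 (z + a k)) atTop (𝓝 (E1 z)) :=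
    hE1d.continuousAt.tendsto.comp hza
  have hδ : Tendsto (fun k => (a k)⁻¹ * (E1 (z + a k) - E1 z)) atTop (𝓝 (deriv E1 z)) := by
    have h1 := hE1d.tendsto_slope_zero
    have h2 : Tendsto a atTop (𝓝[≠] 0) :=
      tendsto_nhdsWithin_iff.mpr ⟨ha, Eventually.of_forall ha0⟩
    exact h1.comp h2
  -- the limit form is symmetric and kills `F`
  have hsym0 : ∀ v w, T0 v w = T0 w v := fun v w =>
    tendsto_nhds_unique ((hTc v w).congr fun k => (hc k).symm v w) (hTc w v)
  have hFF0 : ∀ s ∈ Metric.ball z r, T0 (F s) (F s) = 0 := fun s hs =>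
    tendsto_nhds_unique ((hTc (F s) (F s)).congr fun k => (hc k).hFF s hs) tendsto_const_nhds
  obtain ⟨a1, a2, a3⟩ := lim8_a hF T0 hsym0 hFF0
  -- the covering relation
  have hR : ∀ k v, E0 z * (T k (Y1 z) v + a k * (E1 z * T k (F z) v) +
      a k ^ 2 * T k (Dq (z + a k)) v) - E1 (z + a k) * T k (Y0 z) v = 0 := by
    intro k v
    have h1 := congrArg (fun L : V m →L[ℂ] ℂ => L v) (hcov k)
    have h2 := hD1 (z + a k)
    rw [add_sub_cancel_left] at h2
    rw [h2] at h1
    simp only [map_sub, map_add, map_smul, sub_apply, add_apply, smul_apply, smul_eq_mul,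
      zero_apply] at h1
    linear_combination h1
  -- degree 0
  have hθ : Tendsto (fun k => θ k / a k ^ 2) atTop (𝓝 0) := by
    apply lim8_cancel (c := fun k => E0 z * deriv E1 z - E1 (z + a k) * deriv E0 z)
      (c0 := E0 z * deriv E1 z - E1 z * deriv E0 z) _ _ hw
    · have h1 : T0 (Dq z) (F z) = 0 := by
        have h2 := congrArg (fun v => T0 v (F z)) hD3
        simp only [map_add, map_smul, add_apply, smul_apply, smul_eq_mul] at h2
        rw [hFF0 z hz, hsym0 (iteratedDeriv 1 F z) (F z), a1 z hz] at h2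
        linear_combination h2 / 2
      have h3 : Tendsto (fun k => -(E0 z * T k (Dq (z + a k)) (F z))) atTop (𝓝 0) := by
        have := ((hTT (F z) hDk).const_mul (E0 z)).neg
        rwa [h1, mul_zero, neg_zero] at this
      refine h3.congr fun k => ?_
      have h4 := hR k (F z)
      rw [(hc k).hYF1 z hz, (hc k).hYF0 z hz, (hc k).hFF z hz] at h4
      have h5 := ha0 k
      field_simp
      linear_combination -h4
    · exact tendsto_const_nhds.sub (hEk.mul tendsto_const_nhds)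
  have hθ1 : Tendsto (fun k => θ k / a k) atTop (𝓝 0) := by
    have h1 := hθ.mul ha
    rw [mul_zero] at h1
    refine h1.congr fun k => ?_
    have h5 := ha0 k
    field_simp
  have hθ0 : Tendsto θ atTop (𝓝 0) := by
    have h1 := hθ1.mul ha
    rw [mul_zero] at h1
    refine h1.congr fun k => ?_
    exact div_mul_cancel₀ _ (ha0 k)
  -- the pairings with the derivatives
  have hb0 := fun k => lim8_b hF dE0 dY0 (T k) (hc k).symm (hc k).hFF (hc k).hYF0 hz
  have hb1 := fun k => lim8_b hF dE1 dY1 (T k) (hc k).symm (hc k).hFF (hc k).hYF1 hz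
  have hEE : E0 z * E1 z ≠ 0 := mul_ne_zero hE0 hE1
  -- degree 2, first step
  have hp : Tendsto (fun k => T k (F z) (iteratedDeriv 2 F z) / a k) atTop
      (𝓝 (-(E0 z * T0 (Dq z) (iteratedDeriv 2 F z)) / (E0 z * E1 z))) := by
    have h1 : Tendsto (fun k => (-(θ k / a k ^ 2 * (E0 z * iteratedDeriv 3 E1 z -
        E1 (z + a k) * iteratedDeriv 3 E0 z)) - E0 z * T k (Dq (z + a k)) (iteratedDeriv 2 F z)) /
        (E0 z * E1 z)) atTop
        (𝓝 ((-(0 * (E0 z * iteratedDeriv 3 E1 z - E1 z * iteratedDeriv 3 E0 z)) -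
          E0 z * T0 (Dq z) (iteratedDeriv 2 F z)) / (E0 z * E1 z))) :=
      (((hθ.mul (tendsto_const_nhds.sub (hEk.mul tendsto_const_nhds))).neg).sub
        ((hTT _ hDk).const_mul (E0 z))).div_const _
    rw [zero_mul, neg_zero, zero_sub] at h1
    refine h1.congr fun k => ?_
    have h4 := hR k (iteratedDeriv 2 F z)
    rw [(hb1 k).1, (hb0 k).1] at h4
    have h5 := ha0 k
    field_simp
    linear_combination -h4
  have hP2 : Tendsto (fun k => T k (F z) (iteratedDeriv 2 F z)) atTop (𝓝 0) := by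
    have h1 := hp.mul ha
    rw [mul_zero] at h1
    refine h1.congr fun k => ?_
    exact div_mul_cancel₀ _ (ha0 k)
  have hP2' : T0 (F z) (iteratedDeriv 2 F z) = 0 := tendsto_nhds_unique (hTc _ _) hP2
  -- degree 3
  have hP3 : Tendsto (fun k => T k (F z) (iteratedDeriv 3 F z)) atTop (𝓝 0) := by
    have h1 : Tendsto (fun k => (-(θ k / a k * (E0 z * iteratedDeriv 4 E1 z -
        E1 (z + a k) * iteratedDeriv 4 E0 z)) -
        E0 z * T k (F z) (iteratedDeriv 2 F z) * ((a k)⁻¹ * (E1 (z + a k) - E1 z)) -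
        a k * (E0 z * T k (Dq (z + a k)) (iteratedDeriv 3 F z))) /
        (E0 z * E1 z)) atTop
        (𝓝 ((-(0 * (E0 z * iteratedDeriv 4 E1 z - E1 z * iteratedDeriv 4 E0 z)) -
          E0 z * 0 * deriv E1 z -
          0 * (E0 z * T0 (Dq z) (iteratedDeriv 3 F z))) / (E0 z * E1 z))) :=
      ((((hθ1.mul (tendsto_const_nhds.sub (hEk.mul tendsto_const_nhds))).neg).sub
        ((hP2.const_mul (E0 z)).mul hδ)).sub (ha.mul ((hTT _ hDk).const_mul (E0 z)))).div_const _
    rw [zero_mul, zero_mul, mul_zero, zero_mul, neg_zero, sub_zero, sub_zero, zero_div] at h1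
    refine h1.congr fun k => ?_
    have h4 := hR k (iteratedDeriv 3 F z)
    rw [(hb1 k).2.1, (hb0 k).2.1] at h4
    have h5 := ha0 k
    field_simp
    linear_combination -h4
  have hP3' : T0 (F z) (iteratedDeriv 3 F z) = 0 := tendsto_nhds_unique (hTc _ _) hP3
  -- degree 2, second step
  have hp0 : Tendsto (fun k => T k (F z) (iteratedDeriv 2 F z) / a k) atTop (𝓝 0) := by
    have h1 : T0 (Dq z) (iteratedDeriv 2 F z) = 0 := by
      have h2 := congrArg (fun v => T0 v (iteratedDeriv 2 F z)) hD3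
      simp only [map_add, map_smul, add_apply, smul_apply, smul_eq_mul] at h2
      have h3 := a3 z hz
      rw [hP3'] at h3
      rw [hP2'] at h2
      linear_combination h2 / 2 + E1 z / 6 * h3
    rw [h1, mul_zero, neg_zero, zero_div] at hp
    exact hp
  -- degree 4
  have hP4 : Tendsto (fun k => T k (F z) (iteratedDeriv 4 F z)) atTop (𝓝 0) := by
    have h1 : Tendsto (fun k => (-(θ k / a k * (E0 z * iteratedDeriv 5 E1 z -
        E1 (z + a k) * iteratedDeriv 5 E0 z)) +
        T k (F z) (iteratedDeriv 2 F z) / a k *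
          (E0 z * deriv E1 z - E1 (z + a k) * deriv E0 z) -
        5 / 3 * E0 z * T k (F z) (iteratedDeriv 3 F z) * ((a k)⁻¹ * (E1 (z + a k) - E1 z)) -
        a k * (E0 z * T k (Dq (z + a k)) (iteratedDeriv 4 F z))) /
        (E0 z * E1 z)) atTop
        (𝓝 ((-(0 * (E0 z * iteratedDeriv 5 E1 z - E1 z * iteratedDeriv 5 E0 z)) +
          0 * (E0 z * deriv E1 z - E1 z * deriv E0 z) -
          5 / 3 * E0 z * 0 * deriv E1 z -
          0 * (E0 z * T0 (Dq z) (iteratedDeriv 4 F z))) / (E0 z * E1 z))) :=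
      (((((hθ1.mul (tendsto_const_nhds.sub (hEk.mul tendsto_const_nhds))).neg).add
        (hp0.mul (tendsto_const_nhds.sub (hEk.mul tendsto_const_nhds)))).sub
        ((hP3.const_mul (5 / 3 * E0 z)).mul hδ)).sub
        (ha.mul ((hTT _ hDk).const_mul (E0 z)))).div_const _
    rw [zero_mul, zero_mul, zero_mul, mul_zero, zero_mul, neg_zero, zero_add, sub_zero,
      sub_zero, zero_div] at h1
    refine h1.congr fun k => ?_
    have h4 := hR k (iteratedDeriv 4 F z)
    rw [(hb1 k).2.2, (hb0 k).2.2] at h4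
    have h5 := ha0 k
    field_simp
    linear_combination -3 * h4
  have hP4' : T0 (F z) (iteratedDeriv 4 F z) = 0 := tendsto_nhds_unique (hTc _ _) hP4
  refine ⟨⟨hsym0, hFF0, ?_, ?_, ?_, ?_⟩, ?_, hP2', hP3', hP4'⟩
  · intro s hs
    exact tendsto_nhds_unique ((hTc (Y0 s) (F s)).congr fun k => (hc k).hYF0 s hs)
      (hθ0.mul_const _)
  · intro s hs
    exact tendsto_nhds_unique ((hTc (Y1 s) (F s)).congr fun k => (hc k).hYF1 s hs)
      (hθ0.mul_const _)
  · intro s hs
    exact tendsto_nhds_unique ((hTc (Y0 s) (Y0 s)).congr fun k => (hc k).hYY0 s hs)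
      (hθ0.mul_const _)
  · intro s hs
    exact tendsto_nhds_unique ((hTc (Y1 s) (Y1 s)).congr fun k => (hc k).hYY1 s hs)
      (hθ0.mul_const _)
  · have hY1k : Tendsto (fun k => Y1 (z + a k)) atTop (𝓝 (Y1 z)) :=
      (dY1 z hz).continuousAt.tendsto.comp hza
    have h1 : Tendsto (fun k => T k (E0 z • Y1 (z + a k) - E1 (z + a k) • Y0 z)) atTop
        (𝓝 (T0 (E0 z • Y1 z - E1 z • Y0 z))) :=
      lim8_apply hT ((hY1k.const_smul (E0 z)).sub (hEk.smul tendsto_const_nhds))
    exact tendsto_nhds_unique h1 (tendsto_const_nhds.congr fun k => (hcov k).symm)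

end Stek.Sv
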