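import Pool.Agent.H.MP_fc2485_gt.Sv.LocBA

/-!
The germ lemma of case B for `m = 8`, algebraic form (Taylor coefficients).
-/

open Finset

namespace Stek.Sv

variable {m : ℕ}

private theorem locB8_rec (Q : (Fin m → ℂ) →L[ℂ] (Fin m → ℂ) →L[ℂ] ℂ) {f y : ℕ → Fin m → ℂ}
    {ε : ℕ → ℂ}
    (hy : ∀ n, y (n + 1) = (1 / ((n : ℂ) + 1)) • ∑ p ∈ antidiagonal n, ε p.1 • f p.2)
    (n : ℕ) (v : Fin m → ℂ) :
    Q (y (n + 1)) v = (1 / ((n : ℂ) + 1)) * ∑ p ∈ antidiagonal n, ε p.1 * Q (f p.2) v := by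
  rw [hy n]
  simp [map_sum, _root_.sum_apply]

private theorem locB8_YF (Q : (Fin m → ℂ) →L[ℂ] (Fin m → ℂ) →L[ℂ] ℂ) {f y : ℕ → Fin m → ℂ}
    {ε : ℕ → ℂ}
    (hy : ∀ n, y (n + 1) = (1 / ((n : ℂ) + 1)) • ∑ p ∈ antidiagonal n, ε p.1 • f p.2)
    (hYF : ∀ N, ∑ p ∈ antidiagonal N, Q (y p.1) (f p.2) = 0) (N : ℕ) :
    Q (y 0) (f (N + 1)) = -∑ p ∈ antidiagonal N, (1 / ((p.1 : ℂ) + 1)) *
      ∑ q ∈ antidiagonal p.1, ε q.1 * Q (f q.2) (f p.2) := by
  have h := hYF (N + 1)
  rw [Finset.Nat.sum_antidiagonal_succ] at h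
  simp only [locB8_rec Q hy] at h
  linear_combination h

private theorem locB8_YF0 (Q : (Fin m → ℂ) →L[ℂ] (Fin m → ℂ) →L[ℂ] ℂ) {f y : ℕ → Fin m → ℂ}
    (hYF : ∀ N, ∑ p ∈ antidiagonal N, Q (y p.1) (f p.2) = 0) :
    Q (y 0) (f 0) = 0 := by
  have h := hYF 0
  simpa using h

/-- rank of a form with an anti-triangular Gram matrix -/
theorem locB8_rank {m N : ℕ} (Q : (Fin m → ℂ) →L[ℂ] (Fin m → ℂ) →L[ℂ] ℂ) (w : ℕ → Fin m → ℂ)
    (hlow : ∀ a b, a + b < N → Q (w a) (w b) = 0) (A : Finset ℕ)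
    (hA : ∀ a ∈ A, a ≤ N ∧ Q (w a) (w (N - a)) ≠ 0) :
    A.card ≤ Module.finrank ℂ (LinearMap.range Q.toLinearMap) := by
  classical
  have hli : LinearIndependent ℂ (fun a : A => Q (w a)) := by
    rw [Fintype.linearIndependent_iff]
    intro x hx
    by_contra hcon
    push Not at hcon
    have hne : (Finset.univ.filter fun a : A => x a ≠ 0).Nonempty := by
      obtain ⟨a, ha⟩ := hcon
      exact ⟨a, by simp [ha]⟩
    obtain ⟨a0, ha0, hmax⟩ := Finset.exists_max_image _ (fun a : A => (a : ℕ)) hne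
    have hx0 : x a0 ≠ 0 := (Finset.mem_filter.mp ha0).2
    have h1 := congrArg (fun ξ : (Fin m → ℂ) →L[ℂ] ℂ => ξ (w (N - a0))) hx
    simp only [_root_.sum_apply, _root_.smul_apply,
      _root_.zero_apply, smul_eq_mul] at h1
    rw [Finset.sum_eq_single a0] at h1
    · exact (mul_ne_zero hx0 (hA a0 a0.2).2) h1
    · intro b _ hb
      by_cases hxb : x b = 0
      · simp [hxb]
      · have hle := hmax b (by simp [hxb])
        have hlt : (b : ℕ) < a0 := lt_of_le_of_ne hle (fun h => hb (Subtype.ext h))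
        have h2 := (hA a0 a0.2).1
        rw [hlow b (N - a0) (by omega), mul_zero]
    · intro h
      exact absurd (Finset.mem_univ _) h
  have hli' : LinearIndependent ℂ (fun a : A =>
      (⟨Q (w a), ⟨w a, rfl⟩⟩ : LinearMap.range Q.toLinearMap)) := by
    apply LinearIndependent.of_comp (LinearMap.range Q.toLinearMap).subtype
    exact hli
  have := hli'.fintype_card_le_finrank
  simpa using this

/-- the germ lemma for `m = 8` in terms of Taylor coefficients -/
theorem locB8_alg (hm : m = 8) (Q : (Fin m → ℂ) →L[ℂ] (Fin m → ℂ) →L[ℂ] ℂ)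
    (hsym : ∀ v w, Q v w = Q w v) (hQ : Q ≠ 0) {f y1 y2 : ℕ → Fin m → ℂ} {ε1 ε2 : ℕ → ℂ}
    (hy1 : ∀ n, y1 (n + 1) = (1 / ((n : ℂ) + 1)) • ∑ p ∈ antidiagonal n, ε1 p.1 • f p.2)
    (hy2 : ∀ n, y2 (n + 1) = (1 / ((n : ℂ) + 1)) • ∑ p ∈ antidiagonal n, ε2 p.1 • f p.2)
    (hFF : ∀ N, ∑ p ∈ antidiagonal N, Q (f p.1) (f p.2) = 0)
    (hYF1 : ∀ N, ∑ p ∈ antidiagonal N, Q (y1 p.1) (f p.2) = 0)
    (hYF2 : ∀ N, ∑ p ∈ antidiagonal N, Q (y2 p.1) (f p.2) = 0)
    (hYY : Q (y2 0) (y2 0) = 0)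
    (hsp : ∀ ξ : (Fin m → ℂ) →L[ℂ] ℂ, (∀ n, ξ (y2 n) = 0) → ξ = 0)
    (hE2 : ε2 0 ≠ 0) (hw : ε2 0 * ε1 1 - ε1 0 * ε2 1 ≠ 0)
    (hZ : Q (ε2 0 • y1 0 - ε1 0 • y2 0) = 0)
    (hbas : ∀ ξ : (Fin m → ℂ) →L[ℂ] ℂ, ξ (ε2 0 • y1 0 - ε1 0 • y2 0) = 0 → ξ (y2 0) = 0 →
      (∀ j ≤ 5, ξ (f j) = 0) → ξ = 0)
    (hli : LinearIndependent ℂ ![ε2 0 • y1 0 - ε1 0 • y2 0, y2 0, f 0])
    (h4 : Q (f 0) (f 4) = 0) : False := by
  classical
  -- some `Q (f i) (f j)` is not zero
  have hex : ∃ n, ∃ i j, i + j = n ∧ Q (f i) (f j) ≠ 0 := by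
    by_contra hcon
    have hff : ∀ i j, Q (f i) (f j) = 0 := by
      intro i j
      by_contra h
      exact hcon ⟨i + j, i, j, rfl, h⟩
    have a1 : ∀ N, Q (y2 0) (f N) = 0 := by
      intro N
      rcases N with _ | N
      · exact locB8_YF0 Q hYF2
      · rw [locB8_YF Q hy2 hYF2 N]
        simp [hff]
    have a2 : ∀ i N, Q (y2 i) (f N) = 0 := by
      intro i N
      rcases i with _ | i
      · exact a1 N
      · rw [locB8_rec Q hy2]
        simp [hff]
    have a3 : ∀ i j, Q (y2 i) (y2 j) = 0 := by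
      have b1 : ∀ i j, Q (y2 (i + 1)) (y2 j) = 0 := by
        intro i j
        rw [locB8_rec Q hy2]
        have : ∀ p ∈ antidiagonal i, ε2 p.1 * Q (f p.2) (y2 j) = 0 := by
          intro p _
          rw [hsym, a2, mul_zero]
        rw [sum_congr rfl this]
        simp
      intro i j
      rcases i with _ | i
      · rcases j with _ | j
        · exact hYY
        · rw [hsym]
          exact b1 j 0
      · exact b1 i j
    have a4 : ∀ i, Q (y2 i) = 0 := fun i => hsp _ (a3 i)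
    apply hQ
    ext1 v
    have : Q v = 0 := hsp _ (fun n => by rw [hsym, a4]; simp)
    simpa using this
  -- the minimal degree
  set n := Nat.find hex with hn
  obtain ⟨i0, j0, hij0, hne0⟩ := Nat.find_spec hex
  have hmin : ∀ i j, i + j < n → Q (f i) (f j) = 0 := by
    intro i j hij
    by_contra h
    exact Nat.find_min hex hij ⟨i, j, rfl, h⟩
  set c : ℕ → ℂ := fun i => Q (f i) (f (n - i)) with hc
  have hcs : ∀ i ≤ n, c (n - i) = c i := by
    intro i hi
    simp only [hc]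
    rw [hsym, Nat.sub_sub_self hi]
  have hanti : ∀ g : ℕ → ℂ, ∑ p ∈ antidiagonal n, g p.1 * Q (f p.1) (f p.2) =
      ∑ i ∈ range (n + 1), c i * g i := by
    intro g
    rw [Finset.Nat.sum_antidiagonal_eq_sum_range_succ (fun i j => g i * Q (f i) (f j)) n]
    exact sum_congr rfl (fun i _ => by simp only [hc]; ring)
  have hc0 : ∑ i ∈ range (n + 1), c i = 0 := by
    have := hanti (fun _ => 1)
    simp only [one_mul, mul_one] at this
    rw [← this]
    exact hFF n
  have hcne : ∃ i ≤ n, c i ≠ 0 := by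
    refine ⟨i0, by omega, ?_⟩
    have : n - i0 = j0 := by omega
    simp only [hc, this]
    exact hne0
  -- values on low degrees
  have hlowY : ∀ N ≤ n, Q (y2 0) (f N) = 0 := by
    intro N hN
    rcases N with _ | N
    · exact locB8_YF0 Q hYF2
    · rw [locB8_YF Q hy2 hYF2 N]
      rw [neg_eq_zero]
      apply sum_eq_zero
      intro p hp
      have hp' := mem_antidiagonal.mp hp
      rw [mul_eq_zero]
      right
      apply sum_eq_zero
      intro q hq
      have hq' := mem_antidiagonal.mp hq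
      rw [hmin _ _ (by omega), mul_zero]
  -- the entry `κ`
  have hκ : Q (y2 0) (f (n + 1)) =
      -(ε2 0 * ∑ i ∈ range (n + 1), c i * (1 / ((i : ℂ) + 1))) := by
    rw [locB8_YF Q hy2 hYF2 n, ← hanti (fun i => 1 / ((i : ℂ) + 1)), mul_sum]
    congr 1
    apply sum_congr rfl
    intro p hp
    have hp' := mem_antidiagonal.mp hp
    rw [sum_eq_single (0, p.1)]
    · ring
    · intro q hq hne
      have hq' := mem_antidiagonal.mp hq
      have : q.1 ≠ 0 := by
        intro h
        apply hne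
        ext
        · exact h
        · simp only
          omega
      rw [hmin _ _ (by omega), mul_zero]
    · intro h
      exact absurd (Finset.HasAntidiagonal.mem_antidiagonal.mpr (by simp)) h
  -- the relation from the kernel vector
  have hc2 : ∑ i ∈ range (n + 1), c i * (1 / ((i : ℂ) + 2)) = 0 := by
    set yZ : ℕ → Fin m → ℂ := fun i => ε2 0 • y1 i - ε1 0 • y2 i with hyZ
    set εZ : ℕ → ℂ := fun i => ε2 0 * ε1 i - ε1 0 * ε2 i with hεZ
    have hyZr : ∀ n, yZ (n + 1) =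
        (1 / ((n : ℂ) + 1)) • ∑ p ∈ antidiagonal n, εZ p.1 • f p.2 := by
      intro k
      simp only [hyZ, hεZ, hy1, hy2, sub_smul, sum_sub_distrib, mul_smul, ← smul_sum]
      module
    have hYFZ : ∀ N, ∑ p ∈ antidiagonal N, Q (yZ p.1) (f p.2) = 0 := by
      intro N
      have h1 := hYF1 N
      have h2 := hYF2 N
      simp only [hyZ, map_sub, map_smul, _root_.sub_apply, _root_.smul_apply,
        sum_sub_distrib, ← smul_sum, h1, h2]
      simp
    have h := locB8_YF Q hyZr hYFZ (n + 1)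
    have hQZ : Q (yZ 0) = 0 := hZ
    rw [hQZ, Finset.Nat.sum_antidiagonal_succ] at h
    have hε0 : εZ 0 = 0 := by
      simp only [hεZ]
      ring
    have h3 : ∀ p ∈ antidiagonal n, (1 / (((p.1 + 1 : ℕ) : ℂ) + 1)) *
        ∑ q ∈ antidiagonal (p.1 + 1), εZ q.1 * Q (f q.2) (f p.2) =
        εZ 1 * ((1 / ((p.1 : ℂ) + 2)) * Q (f p.1) (f p.2)) := by
      intro p hp
      have hp' := mem_antidiagonal.mp hp
      rw [Finset.Nat.sum_antidiagonal_succ, hε0, zero_mul, zero_add, sum_eq_single (0, p.1)]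
      · have e1 : (((p.1 + 1 : ℕ) : ℂ) + 1) = (p.1 : ℂ) + 2 := by
          push_cast
          ring
        rw [e1]
        simp only [zero_add]
        ring
      · intro q hq hne
        have hq' := mem_antidiagonal.mp hq
        have : q.1 ≠ 0 := by
          intro h
          apply hne
          ext
          · exact h
          · simp only
            omega
        rw [hmin _ _ (by omega), mul_zero]
      · intro h
        exact absurd (Finset.HasAntidiagonal.mem_antidiagonal.mpr (by simp)) h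
    simp only [_root_.zero_apply] at h
    rw [sum_congr rfl h3, ← mul_sum, hanti (fun i => 1 / ((i : ℂ) + 2))] at h
    have h4 : εZ 1 * ∑ i ∈ range (n + 1), c i * (1 / ((i : ℂ) + 2)) = 0 := by
      have h5 : ∑ q ∈ antidiagonal 0, εZ q.1 * Q (f q.2) (f (n + 1)) = 0 := by
        simp [hε0]
      simp only [h5, mul_zero, zero_add] at h
      linear_combination h
    exact (mul_eq_zero.mp h4).resolve_left hw
  obtain ⟨h5, h7⟩ := locB_comb c hcs hc0 hc2 hcne
  set S := (range (n + 1)).filter fun i => c i ≠ 0 with hS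
  have hSc : S.card ≤ n + 1 := by
    have := card_filter_le (range (n + 1)) (fun i => c i ≠ 0)
    rwa [card_range] at this
  -- degree four is impossible
  have hn5 : 5 ≤ n := by
    by_contra hcon
    have hn4 : n = 4 := by omega
    have hS5 : S.card = (range (n + 1)).card := by
      rw [card_range]
      omega
    have hSe : S = range (n + 1) := eq_of_subset_of_card_le (filter_subset _ _) hS5.ge
    have h0S : (0 : ℕ) ∈ S := by
      rw [hSe]
      simp
    have h0 := (mem_filter.mp h0S).2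
    apply h0
    simp only [hc]
    rw [Nat.sub_zero, hn4]
    exact h4
  -- `Q (y2 0) = 0`
  have hy20 : Q (y2 0) = 0 := by
    apply hbas
    · rw [hsym, hZ]
      rfl
    · exact hYY
    · intro j hj
      exact hlowY j (by omega)
  have hk : ∑ i ∈ range (n + 1), c i * (1 / ((i : ℂ) + 1)) = 0 := by
    have h1 := hκ
    rw [hy20] at h1
    simp only [_root_.zero_apply] at h1
    have h2 : ε2 0 * ∑ i ∈ range (n + 1), c i * (1 / ((i : ℂ) + 1)) = 0 := by
      linear_combination h1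
    exact (mul_eq_zero.mp h2).resolve_left hE2
  have hS7 := h7 hk
  -- `Q (f 0) = 0`
  have hf0 : Q (f 0) = 0 := by
    apply hbas
    · rw [hsym, hZ]
      rfl
    · rw [hsym, hy20]
      rfl
    · intro j hj
      exact hmin 0 j (by omega)
  -- the rank
  have hA : ∀ a ∈ S, a ≤ n ∧ Q (f a) (f (n - a)) ≠ 0 := by
    intro i hi
    simp only [hS, mem_filter, mem_range] at hi
    exact ⟨by omega, hi.2⟩
  have hr := locB8_rank Q f (fun a b hab => hmin a b hab) S hA
  have h2 := LinearMap.finrank_range_add_finrank_ker Q.toLinearMap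
  have h3 : 3 ≤ Module.finrank ℂ (LinearMap.ker Q.toLinearMap) := by
    have hmem : ∀ i, (![ε2 0 • y1 0 - ε1 0 • y2 0, y2 0, f 0] : Fin 3 → Fin m → ℂ) i ∈
        LinearMap.ker Q.toLinearMap := by
      intro i
      rw [LinearMap.mem_ker]
      fin_cases i
      · exact hZ
      · exact hy20
      · exact hf0
    have hli' : LinearIndependent ℂ (fun i : Fin 3 =>
        (⟨(![ε2 0 • y1 0 - ε1 0 • y2 0, y2 0, f 0] : Fin 3 → Fin m → ℂ) i, hmem i⟩ :
          LinearMap.ker Q.toLinearMap)) := by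
      apply LinearIndependent.of_comp (LinearMap.ker Q.toLinearMap).subtype
      exact hli
    have := hli'.fintype_card_le_finrank
    simpa using this
  have h4' : Module.finrank ℂ (Fin m → ℂ) = m := by simp
  omega

end Stek.Sv
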