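import Pool.Agent.H.MP_fc2485_gt.Sv.Defs
import Pool.Agent.H.MP_fc2485_gt.Sv8.LocB8A

/-!
The germ lemma of case B for `m = 8`: Taylor coefficients.
-/

set_option maxSynthPendingDepth 3

open Set Filter Topology

namespace Stek.Sv

/-- Taylor coefficients -/
private noncomputable def locB8_tc (z : ℂ) (g : ℂ → ℂ) (n : ℕ) : ℂ :=
  iteratedDeriv n g z / (n.factorial : ℂ)

/-- Taylor coefficients of vector valued functions -/
private noncomputable def locB8_vc {m : ℕ} (z : ℂ) (X : ℂ → V m) (n : ℕ) : V m :=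
  fun a => locB8_tc z (fun s => X s a) n

private theorem locB8_tc_mul {z : ℂ} {g h : ℂ → ℂ} (hg : AnalyticAt ℂ g z)
    (hh : AnalyticAt ℂ h z) (n : ℕ) :
    locB8_tc z (fun s => g s * h s) n =
      ∑ p ∈ Finset.HasAntidiagonal.antidiagonal n, locB8_tc z g p.1 * locB8_tc z h p.2 := by
  unfold locB8_tc
  rw [iteratedDeriv_fun_mul hg.contDiffAt hh.contDiffAt,
    Finset.Nat.sum_antidiagonal_eq_sum_range_succ (fun i j =>
      iteratedDeriv i g z / (i.factorial : ℂ) * (iteratedDeriv j h z / (j.factorial : ℂ))) n,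
    Finset.sum_div]
  apply Finset.sum_congr rfl
  intro i hi
  have hi' : i ≤ n := by simpa [Nat.lt_succ_iff] using hi
  have hc : ((n.choose i : ℕ) : ℂ) * (i.factorial : ℂ) * ((n - i).factorial : ℂ) =
      (n.factorial : ℂ) := by
    exact_mod_cast Nat.choose_mul_factorial_mul_factorial hi'
  have h1 : (i.factorial : ℂ) ≠ 0 := by exact_mod_cast Nat.factorial_ne_zero i
  have h2 : ((n - i).factorial : ℂ) ≠ 0 := by exact_mod_cast Nat.factorial_ne_zero (n - i)
  have h3 : ((n.choose i : ℕ) : ℂ) ≠ 0 := by exact_mod_cast (Nat.choose_pos hi').ne'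
  rw [← hc]
  field_simp

private theorem locB8_tc_congr {z : ℂ} {g h : ℂ → ℂ} (hgh : g =ᶠ[𝓝 z] h) (n : ℕ) :
    locB8_tc z g n = locB8_tc z h n := by
  unfold locB8_tc
  rw [hgh.iteratedDeriv_eq]

private theorem locB8_tc_zero {z : ℂ} {g : ℂ → ℂ} (hg : ∀ᶠ s in 𝓝 z, g s = 0) (n : ℕ) :
    locB8_tc z g n = 0 := by
  rw [locB8_tc_congr (h := fun _ => 0) hg n]
  unfold locB8_tc
  simp

private theorem locB8_tc_sum {z : ℂ} {ι : Type*} (I : Finset ι) {g : ι → ℂ → ℂ}
    (hg : ∀ i ∈ I, AnalyticAt ℂ (g i) z) (n : ℕ) :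
    locB8_tc z (fun s => ∑ i ∈ I, g i s) n = ∑ i ∈ I, locB8_tc z (g i) n := by
  unfold locB8_tc
  rw [iteratedDeriv_fun_sum (fun i hi => (hg i hi).contDiffAt), Finset.sum_div]

private theorem locB8_tc_const {z : ℂ} (g : ℂ → ℂ) (c : ℂ) (n : ℕ) :
    locB8_tc z (fun s => g s * c) n = locB8_tc z g n * c := by
  unfold locB8_tc
  rw [iteratedDeriv_mul_const_field]
  ring

private theorem locB8_expand {m : ℕ} (ξ : V m →L[ℂ] ℂ) (x : V m) :
    ξ x = ∑ a, x a * ξ (Pi.single a 1) := by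
  have h : x = ∑ a, x a • (Pi.single a (1 : ℂ) : V m) := by
    have := (Pi.basisFun ℂ (Fin m)).sum_repr x
    simpa using this.symm
  conv_lhs => rw [h]
  simp [map_sum]

private theorem locB8_expand2 {m : ℕ} (Q : Bl m) (x y : V m) :
    Q x y = ∑ a, ∑ b, x a * y b * Q (Pi.single a 1) (Pi.single b 1) := by
  have h : x = ∑ a, x a • (Pi.single a (1 : ℂ) : V m) := by
    have := (Pi.basisFun ℂ (Fin m)).sum_repr x
    simpa using this.symm
  conv_lhs => rw [h]
  rw [map_sum, _root_.sum_apply]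
  apply Finset.sum_congr rfl
  intro a _
  rw [map_smul, _root_.smul_apply, locB8_expand (Q (Pi.single a 1)) y, smul_eq_mul,
    Finset.mul_sum]
  exact Finset.sum_congr rfl (fun b _ => by ring)

private theorem locB8_tc_lin {m : ℕ} {z : ℂ} (ξ : V m →L[ℂ] ℂ) {X : ℂ → V m}
    (hX : ∀ a, AnalyticAt ℂ (fun s => X s a) z) (n : ℕ) :
    locB8_tc z (fun s => ξ (X s)) n = ξ (locB8_vc z X n) := by
  have h1 : (fun s => ξ (X s)) = fun s => ∑ a, X s a * ξ (Pi.single a 1) := by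
    funext s
    exact locB8_expand ξ (X s)
  have h2 : ∀ a, AnalyticAt ℂ (fun s => X s a * ξ (Pi.single a 1)) z := fun a =>
    (hX a).mul analyticAt_const
  rw [h1, locB8_tc_sum Finset.univ (fun a _ => h2 a) n,
    locB8_expand ξ (locB8_vc z X n)]
  exact Finset.sum_congr rfl (fun a _ => locB8_tc_const _ _ _)

private theorem locB8_tc_bil {m : ℕ} {z : ℂ} (Q : Bl m) {X W : ℂ → V m}
    (hX : ∀ a, AnalyticAt ℂ (fun s => X s a) z) (hW : ∀ a, AnalyticAt ℂ (fun s => W s a) z)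
    (n : ℕ) :
    locB8_tc z (fun s => Q (X s) (W s)) n =
      ∑ p ∈ Finset.HasAntidiagonal.antidiagonal n, Q (locB8_vc z X p.1) (locB8_vc z W p.2) := by
  have h1 : (fun s => Q (X s) (W s)) = fun s => ∑ a, ∑ b,
      X s a * W s b * Q (Pi.single a 1) (Pi.single b 1) := by
    funext s
    exact locB8_expand2 Q (X s) (W s)
  have hab : ∀ a b, AnalyticAt ℂ
      (fun s => X s a * W s b * Q (Pi.single a 1) (Pi.single b 1)) z := fun a b =>
    ((hX a).mul (hW b)).mul analyticAt_const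
  rw [h1, locB8_tc_sum Finset.univ (fun a _ =>
    Finset.analyticAt_fun_sum _ (fun b _ => hab a b)) n]
  have h2 : ∀ a, locB8_tc z (fun s => ∑ b, X s a * W s b * Q (Pi.single a 1) (Pi.single b 1)) n =
      ∑ b, ∑ p ∈ Finset.HasAntidiagonal.antidiagonal n,
        locB8_tc z (fun s => X s a) p.1 * locB8_tc z (fun s => W s b) p.2 *
          Q (Pi.single a 1) (Pi.single b 1) := by
    intro a
    rw [locB8_tc_sum Finset.univ (fun b _ => hab a b) n]
    apply Finset.sum_congr rfl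
    intro b _
    rw [locB8_tc_const, locB8_tc_mul (hX a) (hW b), Finset.sum_mul]
  rw [Finset.sum_congr rfl (fun a _ => h2 a)]
  have h3 : ∀ p ∈ Finset.HasAntidiagonal.antidiagonal n, Q (locB8_vc z X p.1) (locB8_vc z W p.2) =
      ∑ a, ∑ b, locB8_tc z (fun s => X s a) p.1 * locB8_tc z (fun s => W s b) p.2 *
          Q (Pi.single a 1) (Pi.single b 1) := fun p _ => locB8_expand2 Q _ _
  rw [Finset.sum_congr rfl h3]
  symm
  rw [Finset.sum_comm]
  apply Finset.sum_congr rfl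
  intro a _
  rw [Finset.sum_comm]


private theorem locB8_iter {m : ℕ} {z : ℂ} {F : ℂ → V m}
    (hF : ∀ᶠ s in 𝓝 z, ∀ a, AnalyticAt ℂ (fun s => F s a) s) (n : ℕ) :
    ∀ᶠ s in 𝓝 z, ∀ a, iteratedDeriv n F s a = iteratedDeriv n (fun s => F s a) s := by
  induction n with
  | zero =>
    filter_upwards with s a
    simp
  | succ n ih =>
    filter_upwards [ih.eventually_nhds, hF] with s hs hFs a
    rw [iteratedDeriv_succ, iteratedDeriv_succ]
    have hd : ∀ b, DifferentiableAt ℂ (fun t => iteratedDeriv n F t b) s := by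
      intro b
      have h1 : (fun t => iteratedDeriv n F t b) =ᶠ[𝓝 s] iteratedDeriv n (fun s => F s b) := by
        filter_upwards [hs] with t ht using ht b
      have h4 : AnalyticAt ℂ (iteratedDeriv n (fun s => F s b)) s := by
        rw [iteratedDeriv_eq_iterate]
        exact (hFs b).iterated_deriv n
      exact h4.differentiableAt.congr_of_eventuallyEq h1
    have h2 : deriv (iteratedDeriv n F) s a = deriv (fun t => iteratedDeriv n F t a) s := by
      have := (hasDerivAt_pi.mpr (fun b => (hd b).hasDerivAt)).deriv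
      exact congrFun this a
    rw [h2]
    apply Filter.EventuallyEq.deriv_eq
    filter_upwards [hs] with t ht using ht a

/-- the germ lemma for `m = 8` -/
theorem locB8_main {m : ℕ} (hm : m = 8) (Q : Bl m) (hsym : ∀ v w, Q v w = Q w v) (hQ : Q ≠ 0)
    {z : ℂ} {r : ℝ} (hr : 0 < r) {F Y1 Y2 : ℂ → V m} {E1 E2 : ℂ → ℂ}
    (hF : DifferentiableOn ℂ F (Metric.ball z r))
    (dE1 : DifferentiableOn ℂ E1 (Metric.ball z r)) (dE2 : DifferentiableOn ℂ E2 (Metric.ball z r))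
    (dY1 : ∀ s ∈ Metric.ball z r, HasDerivAt Y1 (E1 s • F s) s)
    (dY2 : ∀ s ∈ Metric.ball z r, HasDerivAt Y2 (E2 s • F s) s)
    (hFF : ∀ s ∈ Metric.ball z r, Q (F s) (F s) = 0)
    (hYF1 : ∀ s ∈ Metric.ball z r, Q (Y1 s) (F s) = 0)
    (hYF2 : ∀ s ∈ Metric.ball z r, Q (Y2 s) (F s) = 0)
    (hYY2 : ∀ s ∈ Metric.ball z r, Q (Y2 s) (Y2 s) = 0)
    (hsp : ∀ ξ : V m →L[ℂ] ℂ, (∀ s ∈ Metric.ball z r, ξ (Y2 s) = 0) → ξ = 0)
    (hE2 : E2 z ≠ 0) (hw : E2 z * deriv E1 z - E1 z * deriv E2 z ≠ 0)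
    (hZ : Q (E2 z • Y1 z - E1 z • Y2 z) = 0)
    (hbas : ∀ ξ : V m →L[ℂ] ℂ, ξ (E2 z • Y1 z - E1 z • Y2 z) = 0 → ξ (Y2 z) = 0 →
      (∀ j ≤ 5, ξ (iteratedDeriv j F z) = 0) → ξ = 0)
    (hli : LinearIndependent ℂ ![E2 z • Y1 z - E1 z • Y2 z, Y2 z, F z])
    (h4 : Q (F z) (iteratedDeriv 4 F z) = 0) : False := by
  have hball : Metric.ball z r ∈ 𝓝 z := Metric.ball_mem_nhds z hr
  have hz : z ∈ Metric.ball z r := Metric.mem_ball_self hr
  have hFa : ∀ a, AnalyticAt ℂ (fun s => F s a) z := fun a =>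
    (differentiableOn_pi.mp hF a).analyticAt hball
  have hE1a : AnalyticAt ℂ E1 z := dE1.analyticAt hball
  have hE2a : AnalyticAt ℂ E2 z := dE2.analyticAt hball
  -- solutions
  have hYa : ∀ {E : ℂ → ℂ} {Y : ℂ → V m}, (∀ s ∈ Metric.ball z r, HasDerivAt Y (E s • F s) s) →
      DifferentiableOn ℂ Y (Metric.ball z r) ∧ ∀ a, AnalyticAt ℂ (fun s => Y s a) z := by
    intro E Y hY
    have h1 : DifferentiableOn ℂ Y (Metric.ball z r) := fun s hs =>
      (hY s hs).differentiableAt.differentiableWithinAt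
    exact ⟨h1, fun a => (differentiableOn_pi.mp h1 a).analyticAt hball⟩
  have hYrec : ∀ {E : ℂ → ℂ} {Y : ℂ → V m}, AnalyticAt ℂ E z →
      (∀ s ∈ Metric.ball z r, HasDerivAt Y (E s • F s) s) → ∀ n,
      locB8_vc z Y (n + 1) = (1 / ((n : ℂ) + 1)) •
        ∑ p ∈ Finset.HasAntidiagonal.antidiagonal n, locB8_tc z E p.1 • locB8_vc z F p.2 := by
    intro E Y hEa hY n
    funext a
    have h1 : deriv (fun s => Y s a) =ᶠ[𝓝 z] fun s => E s * F s a := by
      filter_upwards [hball] with s hs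
      have := (hasDerivAt_pi.mp (hY s hs) a).deriv
      simpa using this
    have h2 : locB8_tc z (fun s => Y s a) (n + 1) =
        (1 / ((n : ℂ) + 1)) * locB8_tc z (fun s => E s * F s a) n := by
      rw [← locB8_tc_congr h1 n]
      unfold locB8_tc
      rw [iteratedDeriv_succ', Nat.factorial_succ]
      push_cast
      have h3 : (n.factorial : ℂ) ≠ 0 := by exact_mod_cast Nat.factorial_ne_zero n
      have h4 : (n : ℂ) + 1 ≠ 0 := by exact_mod_cast Nat.succ_ne_zero n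
      field_simp
    have h5 : locB8_vc z Y (n + 1) a = locB8_tc z (fun s => Y s a) (n + 1) := rfl
    rw [h5, h2, locB8_tc_mul hEa (hFa a) n, Pi.smul_apply, Finset.sum_apply, smul_eq_mul]
    rfl
  have hzero : ∀ {X W : ℂ → V m}, (∀ a, AnalyticAt ℂ (fun s => X s a) z) →
      (∀ a, AnalyticAt ℂ (fun s => W s a) z) → (∀ s ∈ Metric.ball z r, Q (X s) (W s) = 0) →
      ∀ N, ∑ p ∈ Finset.HasAntidiagonal.antidiagonal N, Q (locB8_vc z X p.1) (locB8_vc z W p.2) = 0 := by
    intro X W hX hW h N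
    rw [← locB8_tc_bil Q hX hW N]
    apply locB8_tc_zero
    filter_upwards [hball] with s hs using h s hs
  have hv0 : ∀ X : ℂ → V m, locB8_vc z X 0 = X z := by
    intro X
    funext a
    simp [locB8_vc, locB8_tc]
  have ht0 : ∀ g : ℂ → ℂ, locB8_tc z g 0 = g z := by
    intro g
    simp [locB8_tc]
  have ht1 : ∀ g : ℂ → ℂ, locB8_tc z g 1 = deriv g z := by
    intro g
    simp [locB8_tc, iteratedDeriv_one]
  obtain ⟨dY2', hY2a⟩ := hYa dY2
  obtain ⟨dY1', hY1a⟩ := hYa dY1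
  have hit : ∀ n, iteratedDeriv n F z = (n.factorial : ℂ) • locB8_vc z F n := by
    intro n
    have h1 : ∀ᶠ s in 𝓝 z, ∀ a, AnalyticAt ℂ (fun s => F s a) s := by
      filter_upwards [Metric.isOpen_ball.mem_nhds hz] with s hs a
      exact (differentiableOn_pi.mp hF a).analyticAt (Metric.isOpen_ball.mem_nhds hs)
    have h2 := (locB8_iter h1 n).self_of_nhds
    funext a
    have h3 : (n.factorial : ℂ) ≠ 0 := by exact_mod_cast Nat.factorial_ne_zero n
    rw [h2 a]
    simp only [locB8_vc, locB8_tc, Pi.smul_apply, smul_eq_mul]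
    field_simp
  refine locB8_alg hm Q hsym hQ (f := locB8_vc z F) (y1 := locB8_vc z Y1) (y2 := locB8_vc z Y2)
    (ε1 := locB8_tc z E1) (ε2 := locB8_tc z E2) (hYrec hE1a dY1) (hYrec hE2a dY2)
    (hzero hFa hFa hFF) (hzero hY1a hFa hYF1) (hzero hY2a hFa hYF2) ?_ ?_ ?_ ?_ ?_ ?_ ?_ ?_
  · rw [hv0]
    exact hYY2 z hz
  · intro ξ hξ
    apply hsp ξ
    intro s hs
    have hd : DifferentiableOn ℂ (fun s => ξ (Y2 s)) (Metric.ball z r) :=
      ξ.differentiable.comp_differentiableOn dY2'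
    have hsum := Complex.hasSum_taylorSeries_on_ball hd hs
    have h0 : ∀ n : ℕ, iteratedDeriv n (fun s => ξ (Y2 s)) z = 0 := by
      intro n
      have h1 := locB8_tc_lin ξ hY2a n
      rw [hξ n] at h1
      unfold locB8_tc at h1
      have h3 : (n.factorial : ℂ) ≠ 0 := by exact_mod_cast Nat.factorial_ne_zero n
      exact (div_eq_zero_iff.mp h1).resolve_right h3
    simp only [h0, smul_zero] at hsum
    exact hsum.unique hasSum_zero
  · rw [ht0]
    exact hE2
  · rw [ht0, ht0, ht1, ht1]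
    exact hw
  · rw [ht0, ht0, hv0, hv0]
    exact hZ
  · rw [ht0, ht0, hv0, hv0]
    intro ξ h1 h2 h3
    refine hbas ξ h1 h2 (fun j hj => ?_)
    rw [hit j, map_smul, h3 j hj, smul_zero]
  · rw [ht0, ht0, hv0, hv0, hv0]
    exact hli
  · rw [hv0]
    have h1 := h4
    rw [hit 4, map_smul] at h1
    have h3 : ((Nat.factorial 4 : ℕ) : ℂ) ≠ 0 := by exact_mod_cast Nat.factorial_ne_zero 4
    exact (smul_eq_zero.mp h1).resolve_left h3

end Stek.Sv
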