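import Pool.Agent.H.MP_fc2485_gt.Sv8.Lim8
import Pool.Agent.H.MP_fc2485_gt.Sv8.LocB8B

/-!
Case B for `m = 8`, step 2 (helper46). Let `n` be the order of `q = T0(F(s),F(r))` at `(z,z)`
(LocB, LocBA, LocBB); degree 2, 3: multiples of `(s-r)²`, `(s+r)(s-r)²`, zero; degree 4:
`(s-r)²(α(s²+r²)+β s r)` with `α = t_04 = 0` and `∫_0^1 s P(s,1) ds = 0` gives `β = -3α = 0`; so
`n ≥ 5`. Then `T0(Y0,f_j) = 0` for `j ≤ n`, so `T0(Y0,·) = 0` on the basis `Z, Y0, f_0, ..., f_5`; so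
`∑ c_i/(i+1) = 0`, by the combinatorial lemma of LocBA at least four orbits and at least seven
non-zero `c_i`, so `n ≥ 6` and rank at least seven; but `n ≥ 6` gives `T0(f_0,f_j) = 0` for `j ≤ 5`,
`T0(f_0,·) = 0`, and the kernel contains `Z, Y0, f_0`: rank at most five.
-/

set_option maxSynthPendingDepth 3

open Set Filter Topology

namespace Stek.Sv

/-- the eight vectors `Z, Y0, F, F', ..., F⁽⁵⁾` -/
noncomputable def vec8 {m : ℕ} (z : ℂ) (F Y0 Y1 : ℂ → V m) (E0 E1 : ℂ → ℂ) : Fin 8 → V m :=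
  Fin.cons (E0 z • Y1 z - E1 z • Y0 z)
    (Fin.cons (Y0 z) fun j : Fin 6 => iteratedDeriv j F z)

theorem caseB_local8 {m : ℕ} (hm : m = 8) {z : ℂ} {r : ℝ} {F Y0 Y1 : ℂ → V m} {E0 E1 : ℂ → ℂ}
    (D : Two z r F Y0 Y1 E0 E1)
    (hsp : ∀ ξ : V m →L[ℂ] ℂ, (∀ s ∈ Metric.ball z r, ξ (Y0 s) = 0) → ξ = 0)
    (hli : LinearIndependent ℂ (vec8 z F Y0 Y1 E0 E1)) {T0 : Bl m} (hT0 : T0 ≠ 0)
    (hc : Comp2 z r F Y0 Y1 E0 E1 T0 0) (hZ : T0 (E0 z • Y1 z - E1 z • Y0 z) = 0)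
    (h2 : T0 (F z) (iteratedDeriv 2 F z) = 0) (h3 : T0 (F z) (iteratedDeriv 3 F z) = 0)
    (h4 : T0 (F z) (iteratedDeriv 4 F z) = 0) : False := by
  refine locB8_main hm T0 hc.symm hT0 D.hr D.hF D.dE1 D.dE0 D.dY1 D.dY0 hc.hFF
    (fun s hs => by rw [hc.hYF1 s hs, zero_mul]) (fun s hs => by rw [hc.hYF0 s hs, zero_mul])
    (fun s hs => by rw [hc.hYY0 s hs, zero_mul]) hsp D.hE0 D.hw hZ ?_ ?_ h4
  · intro ξ h1 h2 h3'
    have hspan : Submodule.span ℂ (Set.range (vec8 z F Y0 Y1 E0 E1)) = ⊤ := by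
      apply hli.span_eq_top_of_card_eq_finrank'
      simp [hm]
    have hker : Submodule.span ℂ (Set.range (vec8 z F Y0 Y1 E0 E1)) ≤ LinearMap.ker ξ.toLinearMap := by
      rw [Submodule.span_le]
      rintro _ ⟨i, rfl⟩
      rw [SetLike.mem_coe, LinearMap.mem_ker]
      refine Fin.cases ?_ (fun i => ?_) i
      · exact h1
      · refine Fin.cases ?_ (fun j => ?_) i
        · exact h2
        · exact h3' j (by omega)
    ext1 v
    have hv' : v ∈ LinearMap.ker ξ.toLinearMap := hker (by rw [hspan]; trivial)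
    exact LinearMap.mem_ker.mp hv'
  · have hcomp := hli.comp (![0, 1, 2] : Fin 3 → Fin 8) (by decide)
    have he : vec8 z F Y0 Y1 E0 E1 ∘ (![0, 1, 2] : Fin 3 → Fin 8) =
        ![E0 z • Y1 z - E1 z • Y0 z, Y0 z, F z] := by
      funext i
      fin_cases i
      · rfl
      · rfl
      · show iteratedDeriv 0 F z = F z
        simp
    rw [he] at hcomp
    exact hcomp

end Stek.Sv
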